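import Pool.Agent.P.MP_119182_lc.LQ.Iface

/-! Step CH. -/

set_option autoImplicit false

namespace Pool.Agent.P.MP_119182_lc.LQ

open Finset
open scoped Classical
open NU (Run mr)
open LP

namespace CHy

theorem last (Q : ℕ → Prop) (a b : ℕ) (h : a < b) (hQ : Q a) :
    ∃ T, a ≤ T ∧ T < b ∧ Q T ∧ ∀ T', T < T' → T' < b → ¬ Q T' := by
  obtain ⟨T, hT, hmax⟩ := exists_max_image ((range b).filter Q) id
    ⟨a, mem_filter.2 ⟨mem_range.2 h, hQ⟩⟩
  refine ⟨T, hmax a (mem_filter.2 ⟨mem_range.2 h, hQ⟩), mem_range.1 (mem_filter.1 hT).1,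
    (mem_filter.1 hT).2, fun T' h1 h2 h3 => ?_⟩
  exact absurd (hmax T' (mem_filter.2 ⟨mem_range.2 h2, h3⟩)) (not_le.2 h1)

/-- The least level at which two points lie in one cell. -/
noncomputable def lc (a b : ℤ) : ℕ := sInf {i | sm i a b}

theorem lc_spec {a b : ℤ} {l : ℕ} (h : sm l a b) : sm (lc a b) a b ∧ lc a b ≤ l :=
  ⟨Nat.sInf_mem (s := {i | sm i a b}) ⟨l, h⟩, Nat.sInf_le (s := {i | sm i a b}) h⟩

theorem band (q e : ℕ) (hq : 1 ≤ q) (he : 2 ≤ e) :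
    ∃ t, (4 ^ q) ^ t < e ∧ e ≤ (4 ^ q) ^ (t + 1) ∧ t < (4 ^ q) ^ t := by
  have hB : 1 < 4 ^ q := Nat.one_lt_pow (by omega) (by norm_num)
  refine ⟨Nat.log (4 ^ q) (e - 1), ?_, ?_, Nat.lt_pow_self hB⟩
  · have := Nat.pow_log_le_self (4 ^ q) (x := e - 1) (by omega)
    omega
  · have := Nat.lt_pow_succ_log_self hB (e - 1)
    rw [Nat.succ_eq_add_one] at this
    omega

end CHy

open CHy in
theorem p_CH (hSM : LP.S_SM) (hEN : LP.S_EN) (hLINK : LP.S_LINK) (hGAIN : LP.S_GAIN) (hUSE : LP.S_USE) (hGRID : S_GRID) :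
    S_CH := by
  intro q hq sg d
  obtain ⟨θ0, hθ⟩ := hGRID q hq
  refine ⟨fun i T y => sg + θ0 i (lc (d.x T) y - sg), ?_⟩
  intro K J c hd hc hJ s t y l e hb
  obtain ⟨-, -, -, ⟨hl, hel, hce, hnext, -⟩, -⟩ := hb
  have hsg : sg < e := hc.low _ _ _ hce
  have hlJ : l < J := (hUSE sg d c hd hc s y l hl).1.2.2.2.2 J hJ
  have hAs : A d l s y := (hUSE sg d c hd hc _ _ _ hl).1.2.1
  have us : up d s y := hl.1
  have hL : d.L < y := us.2.1.1
  have hR : y < d.R := us.2.1.2.1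
  by_cases h1 : e = sg + 1
  · exact Or.inl h1
  right
  obtain ⟨t0, g1, g2, g3⟩ := band q (e - sg) hq (by omega)
  have hcold : ∀ b, sg < b → b ≤ e → c s b (y / 2 ^ b) := fun b a1 a2 => hc.sub s b e y a1 a2 hce
  have hcb := hcold (sg + (4 ^ q) ^ t0) (by omega) (by omega)
  by_cases hW : ∀ T ≤ s, c T (sg + (4 ^ q) ^ t0) (y / 2 ^ (sg + (4 ^ q) ^ t0)) →
      en d (sg + (4 ^ q) ^ t0) y T = en d (sg + (4 ^ q) ^ t0) y s → A d l T y
  · right
    left
    refine ⟨t0, mem_range.2 (by omega), by omega, ⟨hl, by omega, hcb, ?_, hW⟩, hlJ.le⟩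
    intro t' a1 a2 a3
    exact hSM.1 _ _ _ _ (by omega) (hnext t' a1 a2 a3)
  · push Not at hW
    obtain ⟨T0, a1, -, a3, a4⟩ := hW
    have a5 : T0 < s := lt_of_le_of_ne a1 fun a => a4 (a ▸ hAs)
    obtain ⟨T, c1, c2, c3, c4⟩ := last (fun T => ¬ A d l T y) T0 s a5 a4
    have c5 : ∀ T', T < T' → T' ≤ s → A d l T' y := by
      intro T' b1 b2
      rcases b2.eq_or_lt with a | a
      · exact a ▸ hAs
      · exact not_not.1 (c4 T' b1 a)
    have c6 := ((hEN sg d c hc _ y s us.1.le).2.2.2.2.2.2.2 hcb).1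
    have c7 : ¬ sm (sg + (4 ^ q) ^ t0) (d.x T) y :=
      (hEN sg d c hc _ y T0 (a1.trans us.1.le)).2.1 T c1 (by omega)
    obtain ⟨c8, c9⟩ := (hGAIN sg d c hd hc T (c2.trans us.1) l y hL hR).2.2.2 c3
      (c5 (T + 1) (by omega) c2)
    rcases c9 with a | ⟨v, a, a'⟩
    · exact absurd (by rw [← a]; rfl) c7
    obtain ⟨e1, e2⟩ := lc_spec c8
    have e3 : sg + (4 ^ q) ^ t0 < lc (d.x T) y := by
      by_contra hn
      exact c7 (hSM.1 _ _ _ _ (not_lt.1 hn) e1)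
    rcases hθ (lc (d.x T) y - sg) (e - sg) (l - sg) t0 (by omega) (by omega) (by omega) g1 g2 with
      ⟨i, i1, i2, i3⟩ | ⟨j, j1, b, j2, j3, j4, j5⟩
    · left
      refine ⟨i, i1, T, v, a, a', c2, c5, ?_, ?_⟩
      · dsimp only
        omega
      · dsimp only
        omega
    · right
      right
      refine ⟨(t0, j, b), mem_filter.2 ⟨mem_product.2 ⟨mem_range.2 ?_, mem_product.2
        ⟨mem_range.2 j1, mem_range.2 ?_⟩⟩, ?_, j4, ?_⟩, ?_, ⟨hl, ?_, hcold _ ?_ ?_, ?_, ?_⟩, ?_⟩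
      all_goals try dsimp only
      · omega
      · omega
      · omega
      · omega
      · omega
      · omega
      · omega
      · omega
      · intro t' b1 b2 b3
        exact hSM.1 _ _ _ _ (by omega) (hnext t' b1 b2 b3)
      · intro T' b1 _ b3
        by_cases hT : T < T'
        · exact c5 T' hT b1
        · exfalso
          have f1 := (hEN sg d c hc (sg + b) y s us.1.le).1.1
          exact (hEN sg d c hc (sg + b) y T' (b1.trans us.1.le)).2.1 T (not_lt.1 hT) (by omega)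
            (hSM.1 _ _ _ _ (by omega) e1)
      · omega

end Pool.Agent.P.MP_119182_lc.LQ
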