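import Pool.Agent.P.MP_119182_lc.LQ.Iface
import Pool.Agent.P.MP_119182_lc.LP.TCUT

/-! Step ENT. -/

set_option autoImplicit false

namespace Pool.Agent.P.MP_119182_lc.LQ

open Finset
open scoped Classical
open NU (Run mr)
open LP

namespace ENTy

/-- The use `(t, y)` is charged to the link at time `T`. -/
def rel (d : Run) (c : ℕ → ℕ → ℤ → Prop) (K : ℕ) (θ : ℕ → ℤ → ℕ) (t : ℕ) (y : ℤ) (T : ℕ) : Prop :=
  ∃ s l e, bs d c K s t y l e ∧ T < s ∧ (∀ T', T < T' → T' ≤ s → A d l T' y) ∧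
    e ≤ θ T y ∧ θ T y < l

theorem nlt (hSM : LP.S_SM) (hUSE : LP.S_USE) {sg K : ℕ} {d : Run} {c : ℕ → ℕ → ℤ → Prop}
    {θ : ℕ → ℤ → ℕ} (hd : d.OK) (hc : Cold sg d c) {t t' T : ℕ} {y : ℤ}
    (h : rel d c K θ t y T) (h' : rel d c K θ t' y T) : ¬ t < t' := by
  intro hlt
  obtain ⟨s, l, e, b, h1, -, h3, -⟩ := h
  obtain ⟨s', l', e', b', -, k2, -, k4⟩ := h'
  have u := b.2.2.1
  have a : t ≤ s' := not_lt.1 fun a => b'.2.1 t a hlt u.1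
  rcases a.eq_or_lt with a | a
  · subst a
    have := (hUSE sg d c hd hc t y e u).1.2.2.1 l' b'.2.2.2.1.1
    omega
  · have := b.1
    exact k2 (t + 1) (by omega) a (hSM.1 e l' _ _ (by omega) u.2.1)

end ENTy

theorem p_ENT (hSM : LP.S_SM) (hSTEP : LP.S_STEP) (hUSE : LP.S_USE) :
    S_ENT := by
  intro sg K d c θ hd hc
  refine card_le_card_of_forall_subsingleton
    (fun p q => up d p.1 p.2 ∧ low d q.1 p.2 q.2 ∧ ENTy.rel d c K θ p.1 p.2 q.1)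
    (fun p hp => ?_) fun q _ p hp p' hp' => ?_
  · obtain ⟨s, l, e, b, -, T, u, h1, h2, h3⟩ := (mem_filter.1 hp).2
    exact ⟨(T, u), CUTx.mem_NP h1.1 h2, b.2.2.1.1, h1, s, l, e, b, h3⟩
  · obtain ⟨-, u, p2, p3⟩ := hp
    obtain ⟨-, -, q2, q3⟩ := hp'
    have e : p.2 = p'.2 := CUTx.low_eq hSTEP hd u.2.1.1 u.2.1.2.1 p2 q2
    rw [← e] at q3
    exact Prod.ext (le_antisymm (not_lt.1 (ENTy.nlt hSM hUSE hd hc q3 p3))
      (not_lt.1 (ENTy.nlt hSM hUSE hd hc p3 q3))) e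

end Pool.Agent.P.MP_119182_lc.LQ
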