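import Pool.Agent.P.MP_119182_lc.LQ.Iface

/-! Step FRO. -/

set_option autoImplicit false

namespace Pool.Agent.P.MP_119182_lc.LQ

open Finset
open scoped Classical
open NU (Run mr)
open LP

theorem p_FRO (hEN : LP.S_EN) (hMARK : LP.S_MARK) :
    S_FRO := by
  intro sg J e n φ d c hd hc
  have h : ∀ q ∈ (PQ d c J e n φ).filter fun q => ¬ pass d e q, ∃ (s : ℕ) (y z : ℤ),
      s < d.m ∧ y ∈ d.keys ∧ q.2.1 < J ∧ (wq d c s y q.2.1 e n ∧ q.2.1 ≤ φ) ∧ q.1 = y / 2 ^ e ∧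
        q.2.2 = en d q.2.1 y s ∧ z ∈ d.keys ∧ z / 2 ^ e = q.1 ∧ A d q.2.1 q.2.2 z := by
    intro q hq
    obtain ⟨h1, h2⟩ := mem_filter.1 hq
    obtain ⟨p, hp, rfl⟩ := mem_image.1 h1
    obtain ⟨hp1, hp2⟩ := mem_filter.1 hp
    obtain ⟨a1, a2⟩ := mem_product.1 hp1
    obtain ⟨a3, a4⟩ := mem_product.1 a2
    unfold LP.pass at h2
    push Not at h2
    obtain ⟨z, z1, z2, z3⟩ := h2
    exact ⟨p.1, p.2.1, z, mem_range.1 a1, a3, mem_range.1 a4, hp2, rfl, rfl, z1, z2, z3⟩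
  choose! s y z hs using h
  have hT : #((univ : Finset Bool) ×ˢ (((range J).filter fun l => e < l ∧ l ≤ φ).sigma
      fun l => LV d c l)) = 2 * VS d c J e φ := by
    rw [card_product, card_sigma, card_univ, Fintype.card_bool, VS]
  rw [← hT]
  refine card_le_card_of_injOn
    (fun q => (decide (y q < z q), ⟨q.2.1, (y q / 2 ^ q.2.1, q.2.2)⟩)) (fun q hq => ?_)
    fun q hq q' hq' hqq => ?_
  · obtain ⟨a1, a2, a3, ⟨a4, a4'⟩, -, a6, -⟩ := hs q (mem_coe.1 hq)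
    have b := hEN sg d c hc q.2.1 (y q) (s q) a1.le
    refine mem_coe.2 (mem_product.2 ⟨mem_univ _, mem_sigma.2
      ⟨mem_filter.2 ⟨mem_range.2 a3, a4.2.1, a4'⟩, ?_⟩⟩)
    refine mem_filter.2 ⟨mem_product.2 ⟨mem_image.2 ⟨y q, a2, rfl⟩, mem_range.2 ?_⟩,
      s q, y q, a4.1.2.2.2, rfl, a6.symm⟩
    have := b.1.2
    show q.2.2 < d.m + 1
    omega
  · obtain ⟨a1, a2, a3, ⟨a4, -⟩, a5, a6, a7, a8, a9⟩ := hs q (mem_coe.1 hq)
    obtain ⟨b1, b2, b3, ⟨b4, -⟩, b5, b6, b7, b8, b9⟩ := hs q' (mem_coe.1 hq')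
    obtain ⟨C, l, T⟩ := q
    obtain ⟨C', l', T'⟩ := q'
    simp only [Prod.mk.injEq, Sigma.mk.injEq, heq_eq_eq, decide_eq_decide] at hqq
    obtain ⟨k1, k2, k3, k4⟩ := hqq
    subst k2 k4
    have e1 := ((hEN sg d c hc l _ _ a1.le).2.2.2.2.2.2.2 a4.1.2.2.2).1
    have e2 := ((hEN sg d c hc l _ _ b1.le).2.2.2.2.2.2.2 b4.1.2.2.2).1
    have k := (hMARK sg d c hd hc).1 e l T _ _ _ _ _ _ a4.1 b4.1 k3 a4.2.1 (e1.trans_eq a6.symm) a6.le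
      (e2.trans_eq b6.symm) b6.le a7 b7 (a5.symm.trans a8.symm) (b5.symm.trans b8.symm) a9 b9 k1
    have k' : C = C' := a5.trans (k.trans b5.symm)
    rw [k']

end Pool.Agent.P.MP_119182_lc.LQ
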