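import Pool.Agent.P.MP_119182_lc.LQ.Iface

/-! Step GRID. -/

set_option autoImplicit false

namespace Pool.Agent.P.MP_119182_lc.LQ

open Finset
open scoped Classical
open NU (Run mr)
open LP

namespace GRIDy

theorem cross (P : ℕ → Prop) (h0 : P 0) : ∀ q, ¬ P q → ∃ j < q, P j ∧ ¬ P (j + 1) := by
  intro q
  induction q with
  | zero => exact fun h => absurd h0 h
  | succ n ih =>
    intro h
    by_cases hn : P n
    · exact ⟨n, Nat.lt_succ_self n, hn, h⟩
    · obtain ⟨j, hj, h1⟩ := ih hn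
      exact ⟨j, Nat.lt_succ_of_lt hj, h1⟩

/-- The thresholds. -/
def th (q i c : ℕ) : ℕ :=
  if i < q then ((c - 1) / (4 ^ (Nat.log (4 ^ q) (c - 1) + 1)) ^ (i + 1) + 1) *
    (4 ^ (Nat.log (4 ^ q) (c - 1) + 1)) ^ (i + 1)
  else if i = q then c else c - 1

end GRIDy

theorem p_GRID :
    S_GRID := by
  intro q hq
  refine ⟨GRIDy.th q, ?_⟩
  intro c e l t hc hcl hel he he'
  rcases Nat.lt_or_ge c e with hce | hce
  · have hlog : Nat.log (4 ^ q) (c - 1) = t :=
      Nat.log_eq_of_pow_le_of_lt_pow (by omega) (by omega)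
    have hpow : (4 ^ (t + 1)) ^ q = (4 ^ q) ^ (t + 1) := by
      rw [← pow_mul, ← pow_mul, Nat.mul_comm]
    have hρ : 0 < 4 ^ (t + 1) := by positivity
    generalize hρe : 4 ^ (t + 1) = ρ at hpow hρ
    obtain ⟨j, hj, h1, h2⟩ := GRIDy.cross (fun j => (c - 1) / ρ ^ j < (e - 1) / ρ ^ j)
      (by simp only [pow_zero, Nat.div_one]; omega) q (by
        have : (e - 1) / ρ ^ q = 0 := Nat.div_eq_of_lt (by omega)
        rw [this]
        exact Nat.not_lt_zero _)
    have hth : GRIDy.th q j c = ((c - 1) / ρ ^ (j + 1) + 1) * ρ ^ (j + 1) := by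
      unfold GRIDy.th
      rw [if_pos hj, hlog, hρe]
    have hm : (c - 1) / ρ ^ (j + 1) = (e - 1) / ρ ^ (j + 1) :=
      le_antisymm (Nat.div_le_div_right (by omega)) (not_lt.1 h2)
    have hp1 : 0 < ρ ^ (j + 1) := pow_pos hρ _
    have hp0 : 0 < ρ ^ j := pow_pos hρ _
    rw [hm] at hth
    by_cases hl : GRIDy.th q j c < l
    · refine Or.inl ⟨j, by omega, ?_, hl⟩
      have h3 := Nat.lt_mul_div_succ (e - 1) hp1
      rw [Nat.mul_comm] at h3
      rw [hth]
      omega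
    · refine Or.inr ⟨j, hj, ρ ^ j * ((e - 1) / ρ ^ j), ?_, ?_, Dvd.intro _ rfl, ?_⟩
      · have h3 := Nat.lt_mul_div_succ (c - 1) hp0
        have h4 : ρ ^ j * ((c - 1) / ρ ^ j + 1) ≤ ρ ^ j * ((e - 1) / ρ ^ j) :=
          Nat.mul_le_mul_left _ h1
        omega
      · have h3 := Nat.mul_div_le (e - 1) (ρ ^ j)
        omega
      · have h3 : (e - 1) / ρ ^ (j + 1) * ρ ^ (j + 1) ≤ ρ ^ j * ((e - 1) / ρ ^ j) := by
          rw [pow_succ, ← Nat.div_div_eq_div_mul]
          have h5 := Nat.div_mul_le_self ((e - 1) / ρ ^ j) ρ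
          calc (e - 1) / ρ ^ j / ρ * (ρ ^ j * ρ) = ρ ^ j * ((e - 1) / ρ ^ j / ρ * ρ) := by ring
            _ ≤ _ := Nat.mul_le_mul_left _ h5
        rw [hth, Nat.add_mul, Nat.one_mul] at hl
        omega
  · left
    rcases Nat.lt_or_ge c l with h | h
    · refine ⟨q, by omega, ?_⟩
      have hth : GRIDy.th q q c = c := by
        unfold GRIDy.th
        rw [if_neg (lt_irrefl q), if_pos rfl]
      rw [hth]
      exact ⟨hce, h⟩
    · refine ⟨q + 1, by omega, ?_⟩
      have hth : GRIDy.th q (q + 1) c = c - 1 := by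
        unfold GRIDy.th
        rw [if_neg (by omega), if_neg (by omega)]
      rw [hth]
      omega

end Pool.Agent.P.MP_119182_lc.LQ
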