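import Pool.Agent.P.MP_119182_lc.LQ.Iface

/-! Step LOW. -/

set_option autoImplicit false

namespace Pool.Agent.P.MP_119182_lc.LQ

open Finset
open scoped Classical
open NU (Run mr)
open LP

namespace LOWy

theorem mm (a : ℤ) : mr (mr a) = a := by unfold mr; ring

theorem key (hTWO : IT.S_TWO) (j : ℕ) (e : Run) (h : e.OK) (t : ℕ) (ht : t < e.m) (u : ℤ)
    (hu : u ∈ e.U t) (hs : sm j (e.lp (t + 1) u) (e.rp (t + 1) u)) :
    IT.bl j (e.lp (t + 1) u) = IT.bl j (e.rp t u) := by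
  obtain ⟨-, -, ⟨-, hrr, -⟩, -⟩ := hTWO e h t ht u hu
  rw [hrr] at hs
  exact hs

end LOWy

open LOWy in
theorem p_LOW (hSM : LP.S_SM) (hSIDE : GP.S_SIDE) (hTWO : IT.S_TWO) (hEMIR : NU.S_EMIR) :
    S_LOW := by
  intro sg d c h
  have hm : d.mir.OK := (hEMIR d).2 h
  have hup := (hSIDE d h).1
  rw [← sum_add_distrib]
  unfold PL1
  rw [card_filter, sum_product]
  refine sum_le_sum fun t ht => ?_
  have ht' : t < d.m := mem_range.1 ht
  rw [← card_filter]
  unfold IT.int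
  refine le_trans (card_le_card (t :=
    ((d.U t).filter fun u => IT.bl (sg + 1) (d.lp (t + 1) u) = IT.bl (sg + 1) (d.rp t u)) ∪
    (((d.mir.U t).filter fun u =>
        IT.bl (sg + 1) (d.mir.lp (t + 1) u) = IT.bl (sg + 1) (d.mir.rp t u)).image mr))
    fun y hy => ?_) ?_
  · obtain ⟨-, hy1, hy2, -⟩ := mem_filter.1 hy
    rcases ((hup t y).1 hy1).2 with hU | hU
    · exact mem_union_left _ (mem_filter.2 ⟨hU, key hTWO _ d h t ht' y hU hy2⟩)
    · refine mem_union_right _ (mem_image.2 ⟨mr y, mem_filter.2 ⟨hU, ?_⟩, mm y⟩)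
      refine key hTWO _ d.mir hm t ht' (mr y) hU ?_
      have e1 : d.mir.lp (t + 1) (mr y) = mr (d.rp (t + 1) y) :=
        congrArg (fun v => mr (d.rp (t + 1) v)) (mm y)
      have e2 : d.mir.rp (t + 1) (mr y) = mr (d.lp (t + 1) y) :=
        congrArg (fun v => mr (d.lp (t + 1) v)) (mm y)
      rw [e1, e2]
      exact (hSM.2.2.2.1 _ _ _).2 (Eq.symm hy2)
  · exact le_trans (card_union_le _ _) (add_le_add le_rfl card_image_le)

end Pool.Agent.P.MP_119182_lc.LQ
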