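import Pool.Agent.P.MP_119182_lc.LQ.Iface

/-! Step LQ. -/

set_option autoImplicit false

namespace Pool.Agent.P.MP_119182_lc.LQ

open Finset
open scoped Classical
open NU (Run mr)
open LP

namespace LQy

lemma lv_le {sg j : ℕ} {d : Run} {c : ℕ → ℕ → ℤ → Prop} (hc : Cold sg d c) (a : ℕ) :
    #(LV d c j) ≤ (a + min (j - sg) 1) * #(LV d c j) := by
  rcases le_or_gt j sg with he | he
  · have : #(LV d c j) = 0 := by
      rw [card_eq_zero, LV, filter_eq_empty_iff]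
      rintro p _ ⟨t, v, h1, -⟩
      exact absurd (hc.low _ _ _ h1) (not_lt.2 he)
    rw [this]
    exact Nat.zero_le _
  · exact Nat.le_mul_of_pos_left _ (by omega)

lemma sum_min (l : ℕ) : ∑ k ∈ range (l + 1), min k 1 ≤ l := by
  induction l with
  | zero => simp
  | succ n ih => rw [sum_range_succ]; omega

lemma fin {K q P O N m Q R1 R2 V B0 B S S1 S2 P1 I1 I2 : ℕ} (C0 : ℕ)
    (h1 : K * P ≤ O + K * (N + 2 * m + 3 * Q + S)) (h2 : S ≤ S1 + S2)
    (s1 : S1 ≤ P1 + (q + 2) * Q + V + (1 + 2 * K) * (m + 2 * V) + (1 + 4 * K) * R1)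
    (s2 : S2 ≤ P1 + (q + 2) * Q + V + (1 + 2 * K) * (m + 2 * V) + (1 + 4 * K) * R2)
    (r1 : 16 * (1 + 4 * K) * R1 ≤ 4 * P + 16 * (1 + 4 * K) * B0)
    (r2 : 16 * (1 + 4 * K) * R2 ≤ 4 * P + 16 * (1 + 4 * K) * B0)
    (hV : V ≤ B) (hB : B0 ≤ B) (hI : P1 ≤ I1 + I2) :
    K * P ≤ 2 * O + (K * (16 + 32 * K + 4 * q) + C0) * (N + m + Q + I1 + I2 + B) := by
  have a1 : K * V ≤ K * B := Nat.mul_le_mul_left _ hV
  have a2 : K * B0 ≤ K * B := Nat.mul_le_mul_left _ hB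
  have a6 : 2 * (N + 2 * m + 3 * Q + S) ≤
      P + (16 + 32 * K + 4 * q) * (N + m + Q + I1 + I2 + B) := by
    have e1 : (q + 2) * Q = q * Q + 2 * Q := by ring
    have e2 : (1 + 2 * K) * (m + 2 * V) = m + 2 * V + 2 * (K * m) + 4 * (K * V) := by ring
    have e3 : 16 * (1 + 4 * K) * R1 = 16 * ((1 + 4 * K) * R1) := by ring
    have e4 : 16 * (1 + 4 * K) * R2 = 16 * ((1 + 4 * K) * R2) := by ring
    have e5 : 16 * (1 + 4 * K) * B0 = 16 * B0 + 64 * (K * B0) := by ring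
    have e6 : (16 + 32 * K + 4 * q) * (N + m + Q + I1 + I2 + B) =
        16 * (N + m + Q + I1 + I2 + B) + 32 * (K * m) + 32 * (K * B) + 4 * (q * Q) +
          (32 * (K * (N + Q + I1 + I2)) + 4 * (q * (N + m + I1 + I2 + B))) := by ring
    rw [e1, e2] at s1 s2
    rw [e3, e5] at r1
    rw [e4, e5] at r2
    rw [e6]
    generalize (1 + 4 * K) * R1 = X1 at *
    generalize (1 + 4 * K) * R2 = X2 at *
    generalize 32 * (K * (N + Q + I1 + I2)) + 4 * (q * (N + m + I1 + I2 + B)) = X3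
    omega
  have a7 := Nat.mul_le_mul_left K a6
  have e7 : K * (2 * (N + 2 * m + 3 * Q + S)) = 2 * (K * (N + 2 * m + 3 * Q + S)) := by ring
  have e8 : K * (P + (16 + 32 * K + 4 * q) * (N + m + Q + I1 + I2 + B)) =
      K * P + K * (16 + 32 * K + 4 * q) * (N + m + Q + I1 + I2 + B) := by ring
  rw [e7, e8] at a7
  rw [add_mul]
  generalize K * (16 + 32 * K + 4 * q) * (N + m + Q + I1 + I2 + B) = X at *
  generalize C0 * (N + m + Q + I1 + I2 + B) = Y
  generalize K * (N + 2 * m + 3 * Q + S) = Z at *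
  omega

end LQy

theorem p_LQ (hEMIR : NU.S_EMIR) (hSM : LP.S_SM) (hCUT : LP.S_CUT) (hLPMIR : LP.S_MIR) (hMIR : S_MIR) (hSIDE : S_SIDE) (hPAIRS : S_PAIRS) (hWTB : S_WTB) (hLOW : S_LOW) :
    S_LQ := by
  intro q K hq hK
  obtain ⟨C0, hC⟩ := hWTB q (16 * (1 + 4 * K)) hq
  have w0 : W q (16 * (1 + 4 * K)) 0 = 0 := by
    have := hC 0
    rw [zero_add, sum_range_one, mul_zero, zero_mul] at this
    omega
  refine ⟨fun a => W q (16 * (1 + 4 * K)) a + min a 1, K * (16 + 32 * K + 4 * q) + (C0 + 1),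
    ?_, fun k hk => ?_, fun l => ?_, fun sg J d c h hc hJ => ?_⟩
  · show W q (16 * (1 + 4 * K)) 0 + min 0 1 = 0
    rw [w0]; rfl
  · show 1 ≤ W q (16 * (1 + 4 * K)) k + min k 1
    omega
  · rw [sum_add_distrib]
    have a1 := hC l
    have a2 := LQy.sum_min l
    have a3 : l ≤ l * 4 ^ Nat.log (4 ^ q) l := Nat.le_mul_of_pos_right _ (by positivity)
    have e : (K * (16 + 32 * K + 4 * q) + (C0 + 1)) * l * 4 ^ Nat.log (4 ^ q) l =
        K * (16 + 32 * K + 4 * q) * l * 4 ^ Nat.log (4 ^ q) l + C0 * l * 4 ^ Nat.log (4 ^ q) l +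
          l * 4 ^ Nat.log (4 ^ q) l := by ring
    rw [e]
    exact (Nat.add_le_add a1 (a2.trans a3)).trans
      (Nat.add_le_add_right (Nat.le_add_left _ _) _)
  · obtain ⟨m1, m2, -, m4⟩ := hLPMIR sg K J d c h hc
    obtain ⟨n1, n2, n3⟩ := hMIR sg d c
    have hJ' : sm J d.mir.L d.mir.R := (hSM.2.2.2.1 J d.R d.L).2 hJ.symm
    have h' := (hEMIR d).2 h
    have s1 := hSIDE q (by omega) sg K J d c h hc hJ
    have s2 := hSIDE q (by omega) sg K J d.mir (mc c) h' m1 hJ'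
    have r1 := hPAIRS q (16 * (1 + 4 * K)) sg J d c (by omega) (by omega) h hc
    have r2 := hPAIRS q (16 * (1 + 4 * K)) sg J d.mir (mc c) (by omega) (by omega) h' m1
    simp only [m2] at s2 r2
    rw [n2, n3, show d.mir.m = d.m from rfl] at s2
    rw [n1] at r2
    exact LQy.fin (C0 + 1) (hCUT sg K d c h hc) m4 s1 s2 r1 r2
      (sum_le_sum fun j _ => LQy.lv_le hc _)
      (sum_le_sum fun j _ => Nat.mul_le_mul_right _ (Nat.le_add_right _ _)) (hLOW sg d c h)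

end Pool.Agent.P.MP_119182_lc.LQ
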