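import Pool.Agent.P.MP_119182_lc.LQ.Iface
import Pool.Agent.P.MP_119182_lc.LP.TMIR

/-! Step MIR. -/

set_option autoImplicit false

namespace Pool.Agent.P.MP_119182_lc.LQ

open Finset
open scoped Classical
open NU (Run mr)
open LP

namespace MIRy

theorem cardm (X Y : Finset (ℕ × ℤ)) (h : ∀ t y, (t, mr y) ∈ X ↔ (t, y) ∈ Y) : #X = #Y := by
  refine card_nbij' (fun p => (p.1, mr p.2)) (fun p => (p.1, mr p.2)) ?_ ?_ ?_ ?_
  · rintro ⟨t, y⟩ hp
    refine mem_coe.2 ((h _ _).1 ?_)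
    rw [MIRx.mm]
    exact mem_coe.1 hp
  · rintro ⟨t, y⟩ hp
    exact mem_coe.2 ((h _ _).2 (mem_coe.1 hp))
  · rintro ⟨t, y⟩ -
    simp only [MIRx.mm]
  · rintro ⟨t, y⟩ -
    simp only [MIRx.mm]

end MIRy

theorem p_MIR (hSM : LP.S_SM) :
    S_MIR := by
  intro sg d c
  obtain ⟨-, -, -, h4, h5, -⟩ := hSM
  refine ⟨MIRy.cardm _ _ fun t y => ?_, MIRy.cardm _ _ fun t y => ?_,
    MIRy.cardm _ _ fun t y => ?_⟩
  · simp only [PL, mem_filter, mem_product, MIRx.em, MIRx.keys, MIRx.euse d c h4 h5]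
  · simp only [NP, mem_filter, mem_product, MIRx.em, MIRx.keys, MIRx.euse d c h4 h5, MIRx.eup]
  · simp only [PL1, mem_filter, mem_product, MIRx.em, MIRx.keys, MIRx.euse d c h4 h5]

end Pool.Agent.P.MP_119182_lc.LQ
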