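import Pool.Agent.P.MP_119182_lc.LQ.Iface

/-! Step PAIRS. -/

set_option autoImplicit false

namespace Pool.Agent.P.MP_119182_lc.LQ

open Finset
open scoped Classical
open NU (Run mr)
open LP

namespace PAIRSy

theorem empty (d : Run) (c : ℕ → ℕ → ℤ → Prop) (J b n φ : ℕ) (h : J ≤ b) :
    #(PQ d c J b n φ) = 0 := by
  rw [card_eq_zero]
  unfold PQ
  rw [image_eq_empty, filter_eq_empty_iff]
  rintro p hp ⟨h1, -⟩
  have h2 := mem_range.1 (mem_product.1 (mem_product.1 hp).2).2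
  have h3 := h1.2.1
  omega

theorem split (d : Run) (c : ℕ → ℕ → ℤ → Prop) (J b n φ : ℕ) :
    #((PQ d c J b n φ).filter fun q => pass d b q) +
      #((PQ d c J b n φ).filter fun q => ¬ pass d b q) = #(PQ d c J b n φ) :=
  card_filter_add_card_filter_not _

end PAIRSy

theorem p_PAIRS (hPAS : S_PAS) (hFRO : S_FRO) (hREC : S_REC) (hSUM : S_SUM) (hWTA : S_WTA) :
    S_PAIRS := by
  intro q κ sg J d c hq hκ hd hc
  have hB : 1 < 4 ^ q := Nat.one_lt_pow (by omega) (by norm_num)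
  have hlt : ∀ t : ℕ, (4 ^ q) ^ t < (4 ^ q) ^ (t + 1) := fun t =>
    Nat.pow_lt_pow_right hB (Nat.lt_succ_self t)
  have h1 := hSUM J κ #(PL d c)
    (fun t => #(PQ d c J (sg + (4 ^ q) ^ t) (sg + (4 ^ q) ^ (t + 1)) J))
    (fun t => if sg + (4 ^ q) ^ t < J then
        ((4 ^ q) ^ (t + 1) + κ * 8 ^ t + 1) * #(LV d c (sg + (4 ^ q) ^ t)) +
          2 * ∑ l ∈ (range J).filter (fun l => sg + (4 ^ q) ^ t < l ∧ l ≤ J), #(LV d c l) else 0)
    hκ (PAIRSy.empty d c J _ _ _ (by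
      have := Nat.lt_pow_self (n := J) hB
      omega)) (by
      intro t _
      by_cases h : sg + (4 ^ q) ^ t < J
      · simp only [if_pos h]
        have a1 := hREC sg J (sg + (4 ^ q) ^ t) (κ * 8 ^ t) (sg + (4 ^ q) ^ (t + 1))
          (sg + (4 ^ q) ^ (t + 1 + 1)) d c hd hc (by have := hlt t; omega)
          (by have := hlt (t + 1); omega)
        have a2 := hFRO sg J (sg + (4 ^ q) ^ t) (sg + (4 ^ q) ^ (t + 1)) J d c hd hc
        have a3 := PAIRSy.split d c J (sg + (4 ^ q) ^ t) (sg + (4 ^ q) ^ (t + 1)) J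
        unfold VS at a2
        rw [← a3]
        have a4 : sg + (4 ^ q) ^ (t + 1) - (sg + (4 ^ q) ^ t) ≤ (4 ^ q) ^ (t + 1) := by omega
        have a5 : κ * 8 ^ t * (sg + (4 ^ q) ^ (t + 1) - (sg + (4 ^ q) ^ t) + κ * 8 ^ t + 1) *
            #(LV d c (sg + (4 ^ q) ^ t)) ≤ κ * 8 ^ t * (((4 ^ q) ^ (t + 1) + κ * 8 ^ t + 1) *
            #(LV d c (sg + (4 ^ q) ^ t))) := by
          rw [mul_assoc (κ * 8 ^ t)]
          exact Nat.mul_le_mul_left _ (Nat.mul_le_mul_right _ (by omega))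
        have a6 := Nat.mul_le_mul_left (κ * 8 ^ t) a2
        rw [mul_add, mul_add]
        omega
      · rw [PAIRSy.empty d c J _ _ _ (not_lt.1 h)]
        omega)
  have h2 : ∑ i ∈ NI q sg J,
      #(PQ d c J (sg + i.2.2) J (sg + i.2.2 + (4 ^ (i.1 + 1)) ^ (i.2.1 + 1))) ≤
      ∑ i ∈ NI q sg J, ((4 ^ (i.1 + 1)) ^ (i.2.1 + 1) * #(LV d c (sg + i.2.2)) +
        2 * ∑ l ∈ (range J).filter (fun l => sg + i.2.2 < l ∧
          l ≤ sg + i.2.2 + (4 ^ (i.1 + 1)) ^ (i.2.1 + 1)), #(LV d c l)) := by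
    refine sum_le_sum fun i _ => ?_
    have a1 := hPAS sg J (sg + i.2.2) J (sg + i.2.2 + (4 ^ (i.1 + 1)) ^ (i.2.1 + 1)) d c hd hc
    have a2 := hFRO sg J (sg + i.2.2) J (sg + i.2.2 + (4 ^ (i.1 + 1)) ^ (i.2.1 + 1)) d c hd hc
    have a3 := PAIRSy.split d c J (sg + i.2.2) J (sg + i.2.2 + (4 ^ (i.1 + 1)) ^ (i.2.1 + 1))
    unfold VS at a2
    rw [Nat.add_sub_cancel_left] at a1
    omega
  have h3 := hWTA q κ sg J (fun j => #(LV d c j)) hq
  have h4 := Nat.mul_le_mul_left κ h2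
  have h5 := Nat.mul_le_mul_left κ h3
  rw [mul_add] at h5 ⊢
  omega

end Pool.Agent.P.MP_119182_lc.LQ
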