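import Pool.Agent.P.MP_119182_lc.LQ.Iface

/-! Step PAS. -/

set_option autoImplicit false

namespace Pool.Agent.P.MP_119182_lc.LQ

open Finset
open scoped Classical
open NU (Run mr)
open LP

theorem p_PAS (hEN : LP.S_EN) (hTWO : S_TWO) :
    S_PAS := by
  intro sg J e n φ d c hd hc
  obtain ⟨S, hS⟩ : ∃ S, S = (PQ d c J e n φ).filter fun q => pass d e q := ⟨_, rfl⟩
  rw [← hS]
  have hw : ∀ q ∈ S, ∃ s y, s < d.m ∧ y ∈ d.keys ∧ q.2.1 ≤ φ ∧ wq d c s y q.2.1 e n ∧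
      y / 2 ^ e = q.1 ∧ en d q.2.1 y s = q.2.2 ∧
        pass d e (y / 2 ^ e, q.2.1, en d q.2.1 y s) := fun q hq => by
    rw [hS] at hq
    obtain ⟨h1, h2⟩ := mem_filter.1 hq
    obtain ⟨⟨s, y, l⟩, h3, rfl⟩ := mem_image.1 h1
    simp only [mem_filter, mem_product, mem_range] at h3
    exact ⟨s, y, h3.1.1, h3.1.2.1, h3.2.2, h3.2.1, rfl, rfl, h2⟩
  choose! s y w1 w2 w3 w4 w5 w6 w7 using hw
  obtain ⟨lf, hlf⟩ : ∃ lf : ℤ × ℕ × ℕ → ℤ × ℕ, lf = fun q => (q.1, en d e (y q) (s q)) := ⟨_, rfl⟩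
  have l1 : ∀ q ∈ S, ∀ q' ∈ S, lf q' = lf q →
      sm e (y q) (y q') ∧ en d e (y q) (s q) = en d e (y q') (s q') := fun q hq q' hq' h => by
    simp only [hlf, Prod.mk.injEq] at h
    exact ⟨(w5 q hq).trans (h.1.symm.trans (w5 q' hq').symm), h.2.symm⟩
  have two := fun q hq q' hq' h => hTWO sg d c hd hc e n (s q) (y q) q.2.1 (s q') (y q') q'.2.1
    (w4 q hq) (w4 q' hq') (l1 q hq q' hq' h).1 (l1 q hq q' hq' h).2 (w7 q hq) (w7 q' hq')
  have inj : ∀ q ∈ S, ∀ q' ∈ S, lf q' = lf q → q.2.1 = q'.2.1 → q = q' := fun q hq q' hq' h h' => by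
    refine Prod.ext ?_ (Prod.ext h' ?_)
    · exact (w5 q hq).symm.trans ((l1 q hq q' hq' h).1.trans (w5 q' hq'))
    · rw [← w6 q hq, ← w6 q' hq', ← h']
      exact (two q hq q' hq' h).1 h'
  refine card_le_mul_card_image_of_maps_to (f := lf) (fun q hq => ?_) _ fun p _ => ?_
  · simp only [hlf, LV, mem_filter, mem_product, mem_image, mem_range]
    exact ⟨⟨⟨y q, w2 q hq, w5 q hq⟩, Nat.lt_succ_of_le (hEN sg d c hc e _ _ (w1 q hq).le).1.2⟩,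
      s q, y q, w5 q hq ▸ (w4 q hq).2.2.1, w5 q hq, rfl⟩
  · have h1 : #(S.filter fun q => lf q = p) ≤ #(Ioc e φ) :=
      card_le_card_of_injOn (fun q => q.2.1) (fun q' hq' => by
        obtain ⟨a1, -⟩ := mem_filter.1 (mem_coe.1 hq')
        exact mem_coe.2 (mem_Ioc.2 ⟨(w4 q' a1).2.1, w3 q' a1⟩)) fun a ha b hb h => by
          obtain ⟨a1, a2⟩ := mem_filter.1 (mem_coe.1 ha)
          obtain ⟨b1, b2⟩ := mem_filter.1 (mem_coe.1 hb)
          exact inj a a1 b b1 (b2.trans a2.symm) h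
    rwa [Nat.card_Ioc] at h1

end Pool.Agent.P.MP_119182_lc.LQ
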