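import Pool.Agent.P.MP_119182_lc.LQ.Iface

/-! Step PP0. -/

set_option autoImplicit false

namespace Pool.Agent.P.MP_119182_lc.LQ

open Finset
open scoped Classical
open NU (Run mr)
open LP

namespace PP0y

theorem time_eq {d : Run} {c : ℕ → ℕ → ℤ → Prop} {K s t t' l e e' : ℕ} {y : ℤ}
    (h : bs d c K s t y l e) (h' : bs d c K s t' y l e') : t = t' := by
  rcases lt_trichotomy t t' with k | k | k
  · exact absurd h.2.2.1.1 (h'.2.1 t h.1 k)
  · exact k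
  · exact absurd h'.2.2.1.1 (h.2.1 t' h'.1 k)

end PP0y

theorem p_PP0 (hSM : LP.S_SM) (hLINK : LP.S_LINK) (hUSE : LP.S_USE) (hMARCH : LP.S_MARCH) :
    S_PP0 := by
  intro ι I b n φ sg K J d c hd hc hJ
  have mem : ∀ ψ, ∀ p ∈ BR d c K ψ, p.1 < d.m ∧ p.2 ∈ d.keys ∧
      ∃ s l e, bs d c K s p.1 p.2 l e ∧ useR d c s p.2 l ∧ ψ s p.1 p.2 l e := fun ψ p hp =>
    ⟨mem_range.1 (mem_product.1 (mem_filter.1 hp).1).1, (mem_product.1 (mem_filter.1 hp).1).2,
      (mem_filter.1 hp).2⟩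
  have lJ : ∀ s y l, useR d c s y l → l < J := fun s y l h =>
    (hUSE sg d c hd hc _ _ _ h.1).1.2.2.2.2 J hJ
  rcases I.eq_empty_or_nonempty with hI | ⟨i0, -⟩
  · subst hI
    rw [sum_empty, Nat.le_zero, card_eq_zero, eq_empty_iff_forall_notMem]
    intro p hp
    obtain ⟨s, l, e, -, -, -, i, hi, -⟩ := (mem _ p hp).2.2
    exact notMem_empty i hi
  have : Nonempty ι := ⟨i0⟩
  have h0 := fun p hp => (mem (fun s t y l e => top0 d s t y l e ∧
      ∃ i ∈ I, b i < e ∧ wq d c s y l (b i) (n i) ∧ l ≤ φ i) p hp).2.2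
  choose! s l e hb hu ht i hi hbe hw hl using h0
  rw [← card_sigma]
  refine card_le_card_of_injOn
    (fun p => ⟨i p, (p.2 / 2 ^ b (i p), l p, en d (l p) p.2 (s p))⟩) (fun p hp => ?_)
    fun p hp q hq h => ?_
  · have hp := mem_coe.1 hp
    have a := lJ _ _ _ (hu p hp)
    refine mem_coe.2 (mem_sigma.2 ⟨hi p hp, ?_⟩)
    exact mem_image.2 ⟨(s p, p.2, l p), mem_filter.2 ⟨mem_product.2
      ⟨mem_range.2 (hu p hp).1.1.1, mem_product.2 ⟨(mem _ p hp).2.1, mem_range.2 a⟩⟩,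
        hw p hp, hl p hp⟩, rfl⟩
  · have hp := mem_coe.1 hp
    have hq := mem_coe.1 hq
    simp only [Sigma.mk.injEq, heq_eq_eq, Prod.mk.injEq] at h
    obtain ⟨e1, e2, e3, e4⟩ := h
    have bq := hb q hq
    have u := hu q hq
    have a1 := hbe q hq
    rw [← e3] at bq u e4
    rw [← e1] at e2 a1
    have e5 : sm (b (i p)) p.2 q.2 := e2
    have r1 := (hLINK d hd _ _ (hu p hp).1.1).1.2
    have r2 := (hLINK d hd _ _ u.1.1).1.2
    have hs : same d c (s p) p.2 (s q) q.2 (l p) :=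
      ⟨hu p hp, u, hSM.1 _ _ _ _ (hw p hp).2.1.le e5, e4⟩
    rcases lt_trichotomy (s p) (s q) with h | h | h
    · have k := ((hMARCH sg d c hd hc _ _ _ _ _ hs).2 h).2.1
      exact absurd (hSM.1 _ _ _ _ (hbe p hp).le (hSM.2.1 _ _ _ _ e5 r1.le k).1) (ht p hp)
    · have e6 := (hMARCH sg d c hd hc _ _ _ _ _ hs).1 h
      rw [← e6, ← h] at bq
      exact Prod.ext (PP0y.time_eq (hb p hp) bq) e6
    · have k := ((hMARCH sg d c hd hc _ _ _ _ _
        (⟨hs.2.1, hs.1, hs.2.2.1.symm, hs.2.2.2.symm⟩ :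
          same d c (s q) q.2 (s p) p.2 (l p))).2 h).2.1
      have e7 : sm (b (i p)) q.2 p.2 := e5.symm
      exact absurd (hSM.1 _ _ _ _ a1.le (hSM.2.1 _ _ _ _ e7 r2.le k).1) (ht q hq)

end Pool.Agent.P.MP_119182_lc.LQ
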