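import Pool.Agent.P.MP_119182_lc.LQ.Iface

/-! Step PP1. -/

set_option autoImplicit false

namespace Pool.Agent.P.MP_119182_lc.LQ

open Finset
open scoped Classical
open NU (Run mr)
open LP

theorem p_PP1 (hSM : LP.S_SM) (hLINK : LP.S_LINK) (hFRZ : LP.S_FRZ) (hUSE : LP.S_USE)
    (hSYNC : LP.S_SYNC) : S_PP1 := by
  intro sg K J d c hd hc hJ
  set Y := BR d c K fun s t y l e => lso d s t y l e ∧ d.x t < y ∧ ¬ crs d s t y l e ∧
    ∃ b < e, insb d c s y l b with hY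
  have h0 : ∀ p ∈ Y, ∃ s l e b, bs d c K s p.1 p.2 l e ∧ useR d c s p.2 l ∧
      lso d s p.1 p.2 l e ∧ d.x p.1 < p.2 ∧ ¬ crs d s p.1 p.2 l e ∧ b < e ∧
        insb d c s p.2 l b := fun p hp => by
    obtain ⟨s, l, e, a1, a2, a3, a4, a5, b, a6, a7⟩ := (mem_filter.1 hp).2
    exact ⟨s, l, e, b, a1, a2, a3, a4, a5, a6, a7⟩
  choose! s l e b hb hu hl hx hn hr hi using h0
  have main : ∀ (τ : Prop) (X : Finset (ℕ × ℤ)), (∀ p ∈ X, p ∈ Y) →
      (∀ p ∈ X, sm (b p) (d.lp (p.1 + 1) p.2) p.2 ↔ τ) → #X ≤ K * #(BL d c J) := by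
    intro τ X hXY hτ
    refine card_le_mul_card_image_of_maps_to (f := fun p =>
      (l p, p.2 / 2 ^ l p, en d (l p) p.2 (s p), rho d (s p) p.2)) (fun p hp0 => ?_) K
      fun β _ => ?_
    · have hp := hXY p hp0
      obtain ⟨h1, h2⟩ := mem_product.1 (mem_filter.1 hp).1
      have h3 := (hu p hp).1.1
      have h4 := (hLINK d hd _ _ h3).1
      have h5 : rho d (s p) p.2 ≤ p.1 := not_lt.1 fun h =>
        (((hFRZ d hd).2.2 _ _ h3).2.2.2.2 p.1 p.2 (hb p hp).1.le h h4.1 h4.2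
          (hb p hp).2.2.1.1.2.1).1.not_gt (hb p hp).1
      exact mem_image.2 ⟨(s p, p.2, l p), mem_filter.2 ⟨mem_product.2 ⟨mem_range.2 h3.1,
        mem_product.2 ⟨h2, mem_range.2 ((hUSE sg d c hd hc _ _ _ (hu p hp).1).1.2.2.2.2 J hJ)⟩⟩,
          hu p hp, h5.trans_lt (mem_range.1 h1)⟩, rfl⟩
    set F := X.filter fun p =>
      (l p, p.2 / 2 ^ l p, en d (l p) p.2 (s p), rho d (s p) p.2) = β with hF
    have hFY : ∀ p ∈ F, p ∈ Y := fun p hp => hXY p (mem_filter.1 hp).1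
    have key : ∀ p ∈ F, ∀ q ∈ F, l q = l p ∧ same d c (s p) p.2 (s q) q.2 (l p) ∧
        rho d (s p) p.2 = rho d (s q) q.2 := fun p hp q hq => by
      have h5 := (mem_filter.1 hp).2.trans (mem_filter.1 hq).2.symm
      simp only [Prod.mk.injEq] at h5
      obtain ⟨e1, e2, e3, e4⟩ := h5
      have h6 := hu q (hFY q hq)
      rw [← e1] at h6 e2 e3
      exact ⟨e1.symm, ⟨hu p (hFY p hp), h6, e2, e3⟩, e4⟩
    have half : ∀ p ∈ F, ∀ q ∈ F, sm (b p) p.2 q.2 := fun p hp q hq =>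
      hi p (hFY p hp) _ _ (key p hp q hq).2.1 (key p hp q hq).2.2.symm
    have lt : ∀ p ∈ F, ∀ q ∈ F, p.1 = q.1 → ¬ p.2 < q.2 := fun p hp q hq e1 h => by
      have u1 := (hb p (hFY p hp)).2.2.1
      have u2 := (hb q (hFY q hq)).2.2.1.1
      have t1 := hτ p (mem_filter.1 hp).1
      have t2 := hτ q (mem_filter.1 hq).1
      rw [← e1] at u2 t2
      obtain ⟨h1, -, -, -, -, -, h2⟩ := hLINK d hd _ _ u1.1
      have h3 := h2 _ u2 h
      have h4 := (hLINK d hd _ _ u2).1.1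
      have h5 : sm (b q) (d.lp (p.1 + 1) q.2) q.2 :=
        (hSM.2.1 _ _ _ _ (Eq.symm (half q hq p hp)) (h1.2.le.trans h3) h4.le).2
      have h6 : sm (b p) p.2 (d.rp (p.1 + 1) p.2) :=
        (hSM.2.1 _ _ _ _ (half p hp q hq) h1.2.le (h3.trans h4.le)).1
      exact u1.2.2.1 (b p) (hr p (hFY p hp)) (Eq.trans (t1.2 (t2.1 h5)) h6)
    rcases F.eq_empty_or_nonempty with h | h
    · simp [h]
    obtain ⟨q, hq, hm⟩ := exists_max_image F Prod.fst h
    have q1 := hFY q hq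
    refine (card_le_card_of_injOn Prod.fst (fun p hp => ?_) fun p hp p' hp' e1 =>
      Prod.ext e1 (le_antisymm (not_lt.1 (lt p' hp' p hp e1.symm))
        (not_lt.1 (lt p hp p' hp' e1)))).trans (hb q q1).2.2.2.2.2.2
    have p1 := hFY p (mem_coe.1 hp)
    rcases (hm p hp).eq_or_lt with h1 | h1
    · rw [h1]
      exact mem_coe.2 (mem_filter.2 ⟨mem_Ioc.2 ⟨(hb q q1).1, le_rfl⟩, (hb q q1).2.2.1.1.2.1⟩)
    · obtain ⟨e1, h2, h3⟩ := key p hp q hq
      obtain ⟨h4, h5⟩ := hSYNC sg K d c hd hc (s p) p.1 p.2 (l p) (e p) (s q) q.1 q.2 (e q)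
        ⟨hb p p1, hu p p1, hl p p1, hn p p1⟩ (e1 ▸ ⟨hb q q1, hu q q1, hl q q1, hn q q1⟩) (hx p p1)
        h2 h3 (hSM.1 _ _ _ _ (hr p p1).le (half p hp q hq))
        (Eq.symm (hSM.1 _ _ _ _ (hr q q1).le (half q hq p hp))) h1
      exact mem_coe.2 (mem_filter.2 ⟨mem_Ioc.2 ⟨h4, h1.le⟩, h5⟩)
  have h1 := main True (Y.filter fun p => sm (b p) (d.lp (p.1 + 1) p.2) p.2)
    (fun p hp => (mem_filter.1 hp).1) fun p hp => iff_true_intro (mem_filter.1 hp).2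
  have h2 := main False (Y.filter fun p => ¬ sm (b p) (d.lp (p.1 + 1) p.2) p.2)
    (fun p hp => (mem_filter.1 hp).1) fun p hp => iff_false_intro (mem_filter.1 hp).2
  have h3 := card_filter_add_card_filter_not (s := Y) fun p => sm (b p) (d.lp (p.1 + 1) p.2) p.2
  rw [mul_assoc, two_mul, ← h3]
  exact Nat.add_le_add h1 h2

end Pool.Agent.P.MP_119182_lc.LQ
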