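import Pool.Agent.P.MP_119182_lc.LQ.Iface

/-! Step PP2. -/

set_option autoImplicit false

namespace Pool.Agent.P.MP_119182_lc.LQ

open Finset
open scoped Classical
open NU (Run mr)
open LP

namespace PP2x

variable {sg K : ℕ} {d : Run} {c : ℕ → ℕ → ℤ → Prop}

/-- The data attached to one counted pair. -/
structure Q (d : Run) (c : ℕ → ℕ → ℤ → Prop) (K s t : ℕ) (y : ℤ) (l e b s0 : ℕ) (y0 : ℤ) :
    Prop where
  cl : cl d c K s t y l e
  lt : d.x t < y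
  be : b < e
  sa : same d c s y s0 y0 l
  rh : rho d s0 y0 = rho d s y
  ou : ¬ sm b y y0

theorem same_symm {s s' l : ℕ} {y y' : ℤ} (h : same d c s y s' y' l) : same d c s' y' s y l :=
  ⟨h.2.1, h.1, Eq.symm h.2.2.1, h.2.2.2.symm⟩

theorem same_trans {s s' s'' l : ℕ} {y y' y'' : ℤ} (h : same d c s y s' y' l)
    (h' : same d c s' y' s'' y'' l) : same d c s y s'' y'' l :=
  ⟨h.1, h'.2.1, Eq.trans h.2.2.1 h'.2.2.1, h.2.2.2.trans h'.2.2.2⟩

theorem anti (hMARCH : LP.S_MARCH) (ok : d.OK) (co : Cold sg d c) {s s' l : ℕ} {y y' : ℤ}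
    (h : same d c s y s' y' l) (hy : y < y') : rho d s' y' ≤ rho d s y := by
  obtain ⟨m1, m2⟩ := hMARCH sg d c ok co _ _ _ _ _ h
  obtain ⟨-, m3⟩ := hMARCH sg d c ok co _ _ _ _ _ (same_symm h)
  rcases lt_trichotomy s s' with e | e | e
  · exact (m2 e).2.2.2
  · exact absurd (m1 e) hy.ne
  · exact absurd (m3 e).1 (not_lt.2 hy.le)

theorem pair (hSM : LP.S_SM) (hLINK : LP.S_LINK) (hMARCH : LP.S_MARCH) (ok : d.OK)
    (co : Cold sg d c) {s t s' t' l e e' b s0 s1 : ℕ} {y y' y0 y1 : ℤ}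
    (h : Q d c K s t y l e b s0 y0) (h' : Q d c K s' t' y' l e' b s1 y1)
    (h1 : same d c s y s' y' l) (h4 : sm b y y') (h3 : y0 < y ↔ y1 < y')
    (h5 : sm b (d.lp (t + 1) y) y ↔ sm b (d.lp (t' + 1) y') y') (hy : y < y') :
    rho d s y = rho d s' y' ∧ t ≠ t' := by
  refine ⟨le_antisymm ?_ (anti hMARCH ok co h1 hy), ?_⟩
  · by_cases k : y1 < y'
    · have k1 : y1 < y := by
        by_contra k2
        exact h'.ou (Eq.symm (hSM.2.1 _ _ _ y1 h4 (not_lt.1 k2) k.le).2)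
      rw [← h'.rh]
      exact anti hMARCH ok co (same_symm (same_trans h1 h'.sa)) k1
    · have k1 : y' < y0 := by
        by_contra k2
        exact h.ou (hSM.2.1 _ _ _ y0 h4 (not_lt.1 fun k3 => k (h3.1 k3)) (not_lt.1 k2)).1
      rw [← h.rh]
      exact anti hMARCH ok co (same_trans (same_symm h1) h.sa) k1
  · rintro rfl
    have k0 := (hLINK d ok t y h.cl.1.2.2.1.1).1.2
    have k1 := (hLINK d ok t y h.cl.1.2.2.1.1).2.2.2.2.2.2 y' h'.cl.1.2.2.1.1 hy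
    have k2 := (hLINK d ok t y' h'.cl.1.2.2.1.1).1.1
    have k3 := (hSM.2.1 _ _ _ _ h4 k0.le (k1.trans k2.le)).1
    have k4 := (hSM.2.1 _ _ _ _ h4 (k0.le.trans k1) k2.le).2
    exact h.cl.1.2.2.1.2.2.1 b h.be (Eq.trans (h5.2 k4) k3)

end PP2x

open PP2x in
theorem p_PP2 (hSM : LP.S_SM) (hLINK : LP.S_LINK) (hUSE : LP.S_USE) (hMARCH : LP.S_MARCH) (hSYNC : LP.S_SYNC) :
    S_PP2 := by
  intro ι I b n φ sg K J d c ok co hJ
  set B := BR d c K fun s t y l e => lso d s t y l e ∧ d.x t < y ∧ ¬ crs d s t y l e ∧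
    ∃ i ∈ I, b i < e ∧ wq d c s y l (b i) (n i) ∧ l ≤ φ i ∧ ¬ insb d c s y l (b i) with hB
  rcases B.eq_empty_or_nonempty with hE | ⟨pp, hpp⟩
  · rw [hE]
    exact Nat.zero_le _
  have hne : Nonempty ι := by
    obtain ⟨-, s, l, e, -, -, -, -, -, i, -⟩ := mem_filter.1 hpp
    exact ⟨i⟩
  have hQ : ∀ p ∈ B, ∃ s l e i s0 y0, Q d c K s p.1 p.2 l e (b i) s0 y0 ∧ i ∈ I ∧
      wq d c s p.2 l (b i) (n i) ∧ l ≤ φ i := by
    intro p hp
    obtain ⟨-, s, l, e, h1, h2, h3, h4, h5, i, h6, h8, h9, h10, h7⟩ := mem_filter.1 hp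
    unfold insb at h7
    push Not at h7
    obtain ⟨s0, y0, k1, k2, k3⟩ := h7
    exact ⟨s, l, e, i, s0, y0, ⟨⟨h1, h2, h3, h5⟩, h4, h8, k1, k2, k3⟩, h6, h9, h10⟩
  choose! s l e i s0 y0 hQ hI hW hφ using hQ
  have hT : #((univ : Finset Bool) ×ˢ (univ : Finset Bool) ×ˢ I.biUnion fun i =>
      (PQ d c J (b i) (n i) (φ i)).image fun q => (i, q)) ≤
      4 * ∑ i ∈ I, #(PQ d c J (b i) (n i) (φ i)) := by
    rw [card_product, card_product, card_univ, Fintype.card_bool, ← mul_assoc]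
    exact Nat.mul_le_mul_left _ (card_biUnion_le.trans (sum_le_sum fun _ _ => card_image_le))
  refine le_trans (card_le_mul_card_image_of_maps_to
    (f := fun p : ℕ × ℤ => (decide (y0 p < p.2),
      decide (sm (b (i p)) (d.lp (p.1 + 1) p.2) p.2), i p, p.2 / 2 ^ b (i p), l p,
      en d (l p) p.2 (s p)))
    (fun p hp => ?_) K fun z _ => ?_) ((Nat.mul_le_mul_left K hT).trans_eq (by ring))
  · have w := hW p hp
    have lJ := (hUSE sg d c ok co _ _ _ w.1).1.2.2.2.2 J hJ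
    refine mem_product.2 ⟨mem_univ _, mem_product.2 ⟨mem_univ _, mem_biUnion.2 ⟨i p, hI p hp,
      mem_image.2 ⟨_, mem_image.2 ⟨(s p, p.2, l p), mem_filter.2 ⟨mem_product.2
        ⟨mem_range.2 w.1.1.1, mem_product.2 ⟨mem_Ioo.2 ⟨w.1.1.2.1.1, w.1.1.2.1.2.1⟩,
          mem_range.2 lJ⟩⟩, w, hφ p hp⟩, rfl⟩, rfl⟩⟩⟩⟩
  · set F := B.filter fun p : ℕ × ℤ => (decide (y0 p < p.2),
      decide (sm (b (i p)) (d.lp (p.1 + 1) p.2) p.2), i p, p.2 / 2 ^ b (i p), l p,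
      en d (l p) p.2 (s p)) = z with hF
    rcases F.eq_empty_or_nonempty with k | k
    · rw [k]
      exact Nat.zero_le _
    have key : ∀ p ∈ F, ∀ p' ∈ F, same d c (s p) p.2 (s p') p'.2 (l p) ∧ sm (b (i p)) p.2 p'.2 ∧
        Q d c K (s p') p'.1 p'.2 (l p) (e p') (b (i p)) (s0 p') (y0 p') ∧
        (y0 p < p.2 ↔ y0 p' < p'.2) ∧ (sm (b (i p)) (d.lp (p.1 + 1) p.2) p.2 ↔
          sm (b (i p)) (d.lp (p'.1 + 1) p'.2) p'.2) := by
      intro p hp p' hp'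
      obtain ⟨a1, a2⟩ := mem_filter.1 hp
      obtain ⟨b1, b2⟩ := mem_filter.1 hp'
      have k := a2.trans b2.symm
      simp only [Prod.mk.injEq, decide_eq_decide] at k
      obtain ⟨k1, k0, k2, k3, k4, k5⟩ := k
      have q := hQ p a1
      have q' := hQ p' b1
      have w := hW p a1
      rw [← k2] at k3 k0
      rw [← k4] at k5
      rw [← k2, ← k4] at q'
      exact ⟨⟨q.cl.2.1, q'.cl.2.1, hSM.1 _ _ _ _ w.2.1.le k3, k5⟩, k3, q', k1, k0⟩
    have key2 : ∀ p ∈ F, ∀ p' ∈ F, rho d (s p) p.2 = rho d (s p') p'.2 ∧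
        (p.1 = p'.1 → p = p') := by
      intro p hp p' hp'
      obtain ⟨a1, a2, a3, a4, a5⟩ := key p hp p' hp'
      have q := (key p hp p hp).2.2.1
      rcases lt_trichotomy p.2 p'.2 with k | k | k
      · obtain ⟨r1, r2⟩ := pair hSM hLINK hMARCH ok co q a3 a1 a2 a4 a5 k
        exact ⟨r1, fun e => absurd e r2⟩
      · have k1 : s p = s p' := by
          rcases lt_trichotomy (s p) (s p') with e | e | e
          · exact absurd ((hMARCH sg d c ok co _ _ _ _ _ a1).2 e).1 k.not_lt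
          · exact e
          · exact absurd ((hMARCH sg d c ok co _ _ _ _ _ (same_symm a1)).2 e).1 k.not_gt
        exact ⟨by rw [k1, k], fun e => Prod.ext e k⟩
      · obtain ⟨r1, r2⟩ := pair hSM hLINK hMARCH ok co a3 q (same_symm a1) (Eq.symm a2)
          a4.symm a5.symm k
        exact ⟨r1.symm, fun e => absurd e.symm r2⟩
    obtain ⟨p0, hp0, hmax⟩ := exists_max_image F Prod.fst k
    have q0 := (key p0 hp0 p0 hp0).2.2.1
    refine le_trans (card_le_card_of_injOn Prod.fst (fun p hp => ?_)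
      fun p hp p' hp' e => (key2 p hp p' hp').2 e) q0.cl.1.2.2.2.2.2.2
    have hp' : p ∈ F := hp
    refine mem_coe.2 (mem_filter.2 ?_)
    rcases (hmax p hp').eq_or_lt with k | k
    · rw [k]
      exact ⟨mem_Ioc.2 ⟨q0.cl.1.1, le_rfl⟩, q0.cl.1.2.2.1.1.2.1⟩
    · obtain ⟨a1, a2, a3, -⟩ := key p hp' p0 hp0
      have q := (key p hp' p hp').2.2.1
      obtain ⟨r1, r2⟩ := hSYNC sg K d c ok co _ _ _ _ _ _ _ _ _ q.cl a3.cl q.lt a1
        (key2 p hp' p0 hp0).1 (hSM.1 _ _ _ _ q.be.le a2) (hSM.1 _ _ _ _ a3.be.le a2) k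
      exact ⟨mem_Ioc.2 ⟨r1, k.le⟩, r2⟩

end Pool.Agent.P.MP_119182_lc.LQ
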