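import Pool.Agent.P.MP_119182_lc.LQ.Iface

/-! Step REC: the recursion for passed pairs, with one target level. -/

set_option autoImplicit false

namespace Pool.Agent.P.MP_119182_lc.LQ

open Finset
open scoped Classical
open NU (Run mr)
open LP

namespace RECy

theorem cnt {B P : Finset (ℤ × ℕ × ℕ)} (n : ℕ) (y : ℤ × ℕ × ℕ → ℤ) (R : ℤ × ℕ × ℕ → ℤ → Prop)
    (h1 : ∀ q ∈ B, ∃ v, (y q / 2 ^ n, q.2) ∈ P ∧ R q v)
    (h2 : ∀ q ∈ B, ∀ q' ∈ B, ∀ v v', R q v → R q' v' → q.2 = q'.2 → sm n (y q) (y q') →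
      (v < y q ↔ v' < y q') → q.1 = q'.1) : #B ≤ 2 * #P := by
  choose! v a2 a3 using h1
  have h3 : #B ≤ #((univ : Finset Prop) ×ˢ P) := by
    refine card_le_card_of_injOn (fun q => (v q < y q, y q / 2 ^ n, q.2))
      (fun q hq => ?_) fun q hq q' hq' e => ?_
    · exact mem_coe.2 (mem_product.2 ⟨mem_univ _, a2 q hq⟩)
    · simp only [Prod.mk.injEq, eq_iff_iff] at e
      obtain ⟨e1, e3, e4⟩ := e
      exact Prod.ext (h2 q hq q' hq' _ _ (a3 q hq) (a3 q' hq') e4 e3 e1) e4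
  rwa [card_product, card_univ, Fintype.card_prop] at h3

end RECy

theorem p_REC (hSM : LP.S_SM) (hEN : LP.S_EN) (hUSE : LP.S_USE) (hMARK : LP.S_MARK) (hTWO : S_TWO)
    (hCASE : S_CASE) (hMK : S_MK) : S_REC := by
  intro sg J e M φ n' d c hd hc hφ hn'
  obtain ⟨S, hS⟩ : ∃ S, S = (PQ d c J e φ J).filter fun q => pass d e q := ⟨_, rfl⟩
  rw [← hS]
  have hw : ∀ q ∈ S, ∃ s y, s < d.m ∧ y ∈ d.keys ∧ q.2.1 < J ∧ wq d c s y q.2.1 e φ ∧
      y / 2 ^ e = q.1 ∧ en d q.2.1 y s = q.2.2 ∧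
        pass d e (y / 2 ^ e, q.2.1, en d q.2.1 y s) := fun q hq => by
    rw [hS] at hq
    obtain ⟨h1, h2⟩ := mem_filter.1 hq
    obtain ⟨⟨s, y, l⟩, h3, rfl⟩ := mem_image.1 h1
    simp only [mem_filter, mem_product, mem_range] at h3
    exact ⟨s, y, h3.1.1, h3.1.2.1, h3.1.2.2, h3.2.1, rfl, rfl, h2⟩
  choose! s y w1 w2 w3 w4 w5 w6 w7 using hw
  obtain ⟨lf, hlf⟩ : ∃ lf : ℤ × ℕ × ℕ → ℤ × ℕ, lf = fun q => (q.1, en d e (y q) (s q)) := ⟨_, rfl⟩
  have l1 : ∀ q ∈ S, ∀ q' ∈ S, lf q' = lf q →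
      sm e (y q) (y q') ∧ en d e (y q) (s q) = en d e (y q') (s q') := fun q hq q' hq' h => by
    simp only [hlf, Prod.mk.injEq] at h
    exact ⟨(w5 q hq).trans (h.1.symm.trans (w5 q' hq').symm), h.2.symm⟩
  have two := fun q hq q' hq' h => hTWO sg d c hd hc e φ (s q) (y q) q.2.1 (s q') (y q') q'.2.1
    (w4 q hq) (w4 q' hq') (l1 q hq q' hq' h).1 (l1 q hq q' hq' h).2 (w7 q hq) (w7 q' hq')
  have inj : ∀ q ∈ S, ∀ q' ∈ S, lf q' = lf q → q.2.1 = q'.2.1 → q = q' := fun q hq q' hq' h h' => by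
    refine Prod.ext ?_ (Prod.ext h' ?_)
    · exact (w5 q hq).symm.trans ((l1 q hq q' hq' h).1.trans (w5 q' hq'))
    · rw [← w6 q hq, ← w6 q' hq', ← h']
      exact (two q hq q' hq' h).1 h'
  obtain ⟨Lo, hLo⟩ : ∃ Lo : ℤ × ℕ × ℕ → Finset (ℤ × ℕ × ℕ),
      Lo = fun q => S.filter fun q' => lf q' = lf q ∧ φ < q'.2.1 ∧ q'.2.1 < q.2.1 := ⟨_, rfl⟩
  have mLo : ∀ q q', q' ∈ Lo q ↔ q' ∈ S ∧ lf q' = lf q ∧ φ < q'.2.1 ∧ q'.2.1 < q.2.1 :=
    fun q q' => by rw [hLo]; exact mem_filter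
  -- few lower pairs
  have hA : #(S.filter fun q => #(Lo q) < M) ≤ (φ - e + M + 1) * #(LV d c e) := by
    refine card_le_mul_card_image_of_maps_to (f := lf) (fun q hq => ?_) _ fun p _ => ?_
    · have hq := (mem_filter.1 hq).1
      simp only [hlf, LV, mem_filter, mem_product, mem_image, mem_range]
      exact ⟨⟨⟨y q, w2 q hq, w5 q hq⟩, Nat.lt_succ_of_le (hEN sg d c hc e _ _ (w1 q hq).le).1.2⟩,
        s q, y q, w5 q hq ▸ (w4 q hq).2.2.1, w5 q hq, rfl⟩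
    rcases (filter (fun q => lf q = p) (S.filter fun q => #(Lo q) < M)).eq_empty_or_nonempty with
      h | h
    · rw [h]; exact Nat.zero_le _
    obtain ⟨q, hq, hm⟩ := exists_max_image _ (fun q : ℤ × ℕ × ℕ => q.2.1) h
    simp only [mem_filter] at hq hm
    obtain ⟨⟨q1, q2⟩, q3⟩ := hq
    have h1 : #(S.filter fun q' => lf q' = lf q ∧ q'.2.1 ≤ φ) ≤ #(Ioc e φ) :=
      card_le_card_of_injOn (fun q => q.2.1) (fun q' hq' => by
        obtain ⟨a1, -, a2⟩ := mem_filter.1 (mem_coe.1 hq')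
        exact mem_coe.2 (mem_Ioc.2 ⟨(w4 q' a1).2.1, a2⟩)) fun a ha b hb h => by
          obtain ⟨a1, a2, -⟩ := mem_filter.1 (mem_coe.1 ha)
          obtain ⟨b1, b2, -⟩ := mem_filter.1 (mem_coe.1 hb)
          exact inj a a1 b b1 (b2.trans a2.symm) h
    rw [Nat.card_Ioc] at h1
    have h2 : filter (fun q => lf q = p) (S.filter fun q => #(Lo q) < M) ⊆
        insert q ((S.filter fun q' => lf q' = lf q ∧ q'.2.1 ≤ φ) ∪ Lo q) := fun a ha => by
      simp only [mem_filter] at ha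
      have a1 := ha.2.trans q3.symm
      rcases (hm a ha).eq_or_lt with h | h
      · exact mem_insert.2 (Or.inl (inj a ha.1.1 q q1 a1.symm h))
      refine mem_insert_of_mem (mem_union.2 ?_)
      rcases le_or_gt a.2.1 φ with h' | h'
      · exact Or.inl (mem_filter.2 ⟨ha.1.1, a1, h'⟩)
      · exact Or.inr ((mLo q a).2 ⟨ha.1.1, a1, h', h⟩)
    have h3 := (card_le_card h2).trans ((card_insert_le _ _).trans
      (Nat.add_le_add_right (card_union_le _ _) 1))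
    omega
  -- the first state of the large life
  obtain ⟨b, hb⟩ : ∃ b : ℤ × ℕ × ℕ → ℕ, b = fun q =>
      sInf {T | c T q.2.1 (y q / 2 ^ q.2.1) ∧ en d q.2.1 (y q) T = q.2.2} := ⟨_, rfl⟩
  have b1 : ∀ q ∈ S, b q ≤ s q ∧ c (b q) q.2.1 (y q / 2 ^ q.2.1) ∧
      en d q.2.1 (y q) (b q) = q.2.2 := fun q hq => by
    have h : s q ∈ {T | c T q.2.1 (y q / 2 ^ q.2.1) ∧ en d q.2.1 (y q) T = q.2.2} :=
      ⟨(w4 q hq).1.2.2.2, w6 q hq⟩
    simp only [hb]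
    exact ⟨Nat.sInf_le h, Nat.sInf_mem ⟨_, h⟩⟩
  have b2 : ∀ q q', q.2 = q'.2 → sm q.2.1 (y q) (y q') → b q = b q' := fun q q' h h' => by
    simp only [hb, ← h]
    refine congrArg sInf (Set.ext fun T => ?_)
    simp only [Set.mem_ofPred_eq]
    rw [← show y q / 2 ^ q.2.1 = y q' / 2 ^ q.2.1 from h']
    refine and_congr_right fun a => ?_
    rw [(hEN sg d c hc q.2.1 (y q) T (hc.out _ _ _ a).1.le).2.2.2.2.2.2.1 _ h']
  have cas := fun q hq q' (hq' : q' ∈ Lo q) => hCASE sg d c hd hc e φ (s q) (y q) q.2.1 (s q') (y q')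
    q'.2.1 (b q) (w4 q hq) (w4 q' ((mLo q q').1 hq').1)
    (l1 q hq q' ((mLo q q').1 hq').1 ((mLo q q').1 hq').2.1).1
    (l1 q hq q' ((mLo q q').1 hq').1 ((mLo q q').1 hq').2.1).2 (w7 q hq)
    (w7 q' ((mLo q q').1 hq').1) ((mLo q q').1 hq').2.2.2 (b1 q hq).1 (b1 q hq).2.1
    ((b1 q hq).2.2.trans (w6 q hq).symm)
  have pr : ∀ q ∈ S, φ < q.2.1 → (y q / 2 ^ φ, q.2) ∈ PQ d c J φ n' J := fun q hq g2 => by
    refine mem_image.2 ⟨(s q, y q, q.2.1), ?_, ?_⟩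
    · simp only [mem_filter, mem_product, mem_range]
      exact ⟨⟨w1 q hq, w2 q hq, w3 q hq⟩, (two q hq q hq rfl).2.2 φ n' hφ.le g2 hn',
        (w3 q hq).le⟩
    · simp only [w6 q hq]
  have fz : ∀ q ∈ S, ∀ g < q.2.1, A d g q.2.2 (y q) := fun q hq g hg => by
    have a1 := ((hEN sg d c hc q.2.1 (y q) (s q) (w1 q hq).le).2.2.2.2.2.2.2 (w4 q hq).1.2.2.2).1
    rw [← w6 q hq]
    exact ((hUSE sg d c hd hc _ _ _ (w4 q hq).1).2.1 _ a1 le_rfl).2 g hg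
  obtain ⟨R1, hR1⟩ : ∃ R1 : ℤ × ℕ × ℕ → ℤ → Prop, R1 = fun q v => φ < q.2.1 ∧
      v ∈ d.keys ∧ sm e (y q) v ∧ A d q.2.1 (b q) (y q) ∧ A d φ (b q) v ∧ ¬ A d q.2.1 (b q) v :=
    ⟨_, rfl⟩
  obtain ⟨R2, hR2⟩ : ∃ R2 : ℤ × ℕ × ℕ → ℤ → Prop, R2 = fun q v => sm e (y q) v ∧
      ∃ g r, φ < g ∧ g < q.2.1 ∧ r < q.2.2 ∧ use d c r v g ∧ q.2.2 ≤ en d g v r :=
    ⟨_, rfl⟩
  have fin : ∀ q ∈ S, ∀ q' ∈ S, ∀ v v', sm e (y q) v → sm e (y q') v' → sm e v v' → q.1 = q'.1 :=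
    fun q hq q' hq' v v' a1 a2 a3 =>
      (w5 q hq).symm.trans (a1.trans (a3.trans (a2.symm.trans (w5 q' hq'))))
  have upg : ∀ a a' v v', sm e a v → sm e a' v' → sm φ a a' → sm φ v v' :=
    fun a a' v v' a1 a2 a3 => (hSM.1 e φ _ _ hφ.le a1).symm.trans
      (a3.trans (hSM.1 e φ _ _ hφ.le a2))
  have hB1 : #(S.filter fun q => ∃ v, R1 q v) ≤ 2 * #(PQ d c J φ n' J) := by
    refine RECy.cnt φ y R1 (fun q hq => ?_) fun q hq q' hq' v v' r r' h1 h2 h3 => ?_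
    · obtain ⟨q1, v, r⟩ := mem_filter.1 hq
      have r' := r
      simp only [hR1] at r'
      exact ⟨v, pr q q1 r'.1, r⟩
    · have q1 := (mem_filter.1 hq).1
      have q2 := (mem_filter.1 hq').1
      simp only [hR1] at r r'
      obtain ⟨a2, a3, a4, a5, a6, a7⟩ := r
      obtain ⟨-, c3, c4, c5, c6, c7⟩ := r'
      rw [← b2 q q' h1 (hSM.1 φ _ _ _ a2.le h2)] at c5 c6 c7
      rw [← h1] at c5 c7
      exact fin q q1 q' q2 v v' a4 c4 ((hMARK sg d c hd hc).2 e φ q.2.1 (b q) v (y q) v' (y q')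
        ((b1 q q1).1.trans (w1 q q1).le) hφ.le a2.le a3 (w2 q q1) c3 (w2 q' q2)
        (upg _ _ _ _ a4 c4 h2) a4.symm c4.symm a6 a7 a5 c6 c7 c5 h3)
  have hB2 : #(S.filter fun q => ∃ v, R2 q v) ≤ 2 * #(PQ d c J φ n' J) := by
    refine RECy.cnt φ y R2 (fun q hq => ?_) fun q hq q' hq' v v' r r' h1 h2 h3 => ?_
    · obtain ⟨q1, v, r⟩ := mem_filter.1 hq
      have r' := r
      simp only [hR2] at r'
      obtain ⟨-, g, -, a1, a2, -⟩ := r'
      exact ⟨v, pr q q1 (a1.trans a2), r⟩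
    · have q1 := (mem_filter.1 hq).1
      have q2 := (mem_filter.1 hq').1
      simp only [hR2] at r r'
      obtain ⟨a3, g, r, a1, a2, a5, a6, a7⟩ := r
      obtain ⟨c3, g', r', c1, c2, c5, c6, c7⟩ := r'
      have f1 := fz q q1
      have f2 := fz q' q2
      rw [← h1] at c2 c5 c7 f2
      exact fin q q1 q' q2 v v' a3 c3 (hMK sg d c hd hc e φ g g' q.2.2 r r' v (y q) v' (y q')
        a6 c6 (upg _ _ _ _ a3 c3 h2) hφ.le a1 c1 a5 a7 c5 c7 a3.symm c3.symm (f1 g a2) (f2 g a2)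
        (f1 g' c2) (f2 g' c2) h3)
  obtain ⟨W, hW⟩ : ∃ W : ℤ × ℕ × ℕ → Finset (ℕ × ℤ), W = fun q => (PL d c).filter fun p =>
      use d c p.1 p.2 q.2.1 ∧ p.2 / 2 ^ e = q.1 ∧ en d q.2.1 p.2 p.1 = q.2.2 := ⟨_, rfl⟩
  have hB3 : M * #(S.filter fun q => M ≤ #(W q)) ≤ #(PL d c) := by
    have h1 : #(S.filter fun q => M ≤ #(W q)) • M ≤ ∑ q ∈ S.filter fun q => M ≤ #(W q), #(W q) :=
      card_nsmul_le_sum _ _ _ fun q hq => (mem_filter.1 hq).2
    rw [smul_eq_mul, mul_comm, ← card_biUnion] at h1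
    · exact h1.trans (card_le_card (biUnion_subset.2 fun q _ => hW ▸ filter_subset _ _))
    · intro q _ q' _ hne
      refine disjoint_left.2 fun p p1 p2 => hne ?_
      simp only [hW, mem_filter] at p1 p2
      have h := (hUSE sg d c hd hc _ _ _ p1.2.1).1.2.2.1 _ p2.2.1
      refine Prod.ext (p1.2.2.1.symm.trans p2.2.2.1) (Prod.ext h.symm ?_)
      rw [← p1.2.2.2, ← p2.2.2.2, h]
  have cov : S ⊆ (S.filter fun q => #(Lo q) < M) ∪ (S.filter fun q => M ≤ #(W q)) ∪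
      (S.filter fun q => ∃ v, R1 q v) ∪ S.filter fun q => ∃ v, R2 q v := fun q hq => by
    simp only [mem_union, mem_filter]
    by_contra h
    simp only [not_or, not_and, not_lt, not_le, not_exists] at h
    obtain ⟨⟨⟨h1, h2⟩, h3⟩, h4⟩ := h
    have k : ∀ q' ∈ Lo q, ∃ r, (r, y q') ∈ W q := fun q' hq' => by
      obtain ⟨a1, a2, a3, a4⟩ := (mLo q q').1 hq'
      have a5 := (l1 q hq q' a1 a2).1
      rcases cas q hq q' hq' with ⟨c1, c2, c3⟩ | ⟨r, g, c1, c2, c3, c4, c5, c7⟩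
      · refine absurd ?_ (h3 hq (y q'))
        simp only [hR1]
        exact ⟨by omega, w2 q' a1, a5, c1, fun k => c2 (hSM.1 _ _ _ _ (by omega) k), c3⟩
      rw [w6 q hq] at c2 c7
      rcases c4.eq_or_lt with rfl | c4
      · refine ⟨r, ?_⟩
        simp only [hW, PL, mem_filter, mem_product, mem_range]
        have r1 : r < d.m := c5.1.1
        refine ⟨⟨⟨r1, w2 q' a1⟩, _, c5⟩, c5, a5.symm.trans (w5 q hq), ?_⟩
        rw [(hEN sg d c hc q.2.1 (y q) r r1.le).2.2.2.2.2.2.1 _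
          (hSM.1 e _ _ _ (w4 q hq).2.1.le a5), ← (b1 q hq).2.2]
        exact (hEN sg d c hc q.2.1 (y q) (b q) (c1.trans r1.le)).2.2.2.1 r c1
          ((b1 q hq).2.2.symm ▸ c2.le)
      · refine absurd ?_ (h4 hq (y q'))
        simp only [hR2]
        exact ⟨a5, g, r, by omega, c4, c2, c5, c7 c4⟩
    choose! r hr using k
    have : #(Lo q) ≤ #(W q) := card_le_card_of_injOn (fun q' => (r q', y q'))
      (fun q' hq' => hr q' hq') fun a ha a' ha' h => by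
        obtain ⟨a1, a2, a3, -⟩ := (mLo q a).1 ha
        obtain ⟨c1, c2, c3, -⟩ := (mLo q a').1 ha'
        have h' : y a = y a' := (Prod.ext_iff.1 h).2
        rcases lt_trichotomy a.2.1 a'.2.1 with t | t | t
        · exact absurd h'.symm (((two a' c1 a a1 (a2.trans c2.symm)).2.1 t).2 a3)
        · exact inj a a1 a' c1 (c2.trans a2.symm) t
        · exact absurd h' (((two a a1 a' c1 (c2.trans a2.symm)).2.1 t).2 c3)
    have := h1 hq
    have := h2 hq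
    omega
  have t1 := (card_le_card cov).trans ((card_union_le _ _).trans (Nat.add_le_add
    ((card_union_le _ _).trans (Nat.add_le_add
      ((card_union_le _ _).trans (Nat.add_le_add_right hA _)) hB1)) hB2))
  refine (Nat.mul_le_mul_left M t1).trans ?_
  rw [mul_add, mul_add, mul_add, mul_assoc M]
  nlinarith

end Pool.Agent.P.MP_119182_lc.LQ
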