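import Pool.Agent.P.MP_119182_lc.LQ.Iface

/-! Step SIDE. -/

set_option autoImplicit false

namespace Pool.Agent.P.MP_119182_lc.LQ

open Finset
open scoped Classical
open NU (Run mr)
open LP

namespace SIDEy

lemma card9 (X A1 A2 A3 A4 A5 A6 A7 A8 A9 : Finset (ℕ × ℤ))
    (h : ∀ p ∈ X, p ∈ A1 ∨ p ∈ A2 ∨ p ∈ A3 ∨ p ∈ A4 ∨ p ∈ A5 ∨ p ∈ A6 ∨ p ∈ A7 ∨ p ∈ A8 ∨
      p ∈ A9) :
    #X ≤ #A1 + #A2 + #A3 + #A4 + #A5 + #A6 + #A7 + #A8 + #A9 := by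
  refine le_trans (card_le_card (t := A1 ∪ A2 ∪ A3 ∪ A4 ∪ A5 ∪ A6 ∪ A7 ∪ A8 ∪ A9) ?_) ?_
  · intro p hp
    simp only [mem_union]
    have := h p hp
    tauto
  · refine (card_union_le _ _).trans (Nat.add_le_add_right ?_ _)
    refine (card_union_le _ _).trans (Nat.add_le_add_right ?_ _)
    refine (card_union_le _ _).trans (Nat.add_le_add_right ?_ _)
    refine (card_union_le _ _).trans (Nat.add_le_add_right ?_ _)
    refine (card_union_le _ _).trans (Nat.add_le_add_right ?_ _)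
    refine (card_union_le _ _).trans (Nat.add_le_add_right ?_ _)
    refine (card_union_le _ _).trans (Nat.add_le_add_right ?_ _)
    exact card_union_le _ _

end SIDEy

theorem p_SIDE (hTYP : LP.S_TYP) (hTOP : LP.S_TOP) (hRB : LP.S_RB) (hENT : S_ENT) (hCH : S_CH) (hPP0 : S_PP0) (hPP1 : S_PP1) (hPP2 : S_PP2) :
    S_SIDE := by
  intro q hq sg K J d c h hc hJ
  obtain ⟨θ, hθ⟩ := hCH q hq sg d
  obtain ⟨-, h3, h4⟩ := hTOP sg K J d c h hc hJ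
  have h5 := hPP1 sg K J d c h hc hJ
  have h6 := hPP0 ℕ (range J) (fun i => sg + (4 ^ q) ^ i) (fun i => sg + (4 ^ q) ^ (i + 1))
    (fun _ => J) sg K J d c h hc hJ
  have h7 := hPP0 (ℕ × ℕ × ℕ) (NI q sg J) (fun i => sg + i.2.2) (fun _ => J)
    (fun i => sg + i.2.2 + (4 ^ (i.1 + 1)) ^ (i.2.1 + 1)) sg K J d c h hc hJ
  have h8 := hPP2 ℕ (range J) (fun i => sg + (4 ^ q) ^ i) (fun i => sg + (4 ^ q) ^ (i + 1))
    (fun _ => J) sg K J d c h hc hJ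
  have h9 := hPP2 (ℕ × ℕ × ℕ) (NI q sg J) (fun i => sg + i.2.2) (fun _ => J)
    (fun i => sg + i.2.2 + (4 ^ (i.1 + 1)) ^ (i.2.1 + 1)) sg K J d c h hc hJ
  have h2 : #((range (q + 2)).biUnion fun i => BR d c K (ent d c (θ i))) ≤
      (q + 2) * #(NP d c) := by
    refine card_biUnion_le.trans ?_
    refine (sum_le_card_nsmul _ _ #(NP d c) fun i _ => hENT sg K d c (θ i) h hc).trans ?_
    rw [card_range, smul_eq_mul]
  have hB := Nat.mul_le_mul_left (1 + 2 * K) (hRB sg J d c h hc hJ)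
  refine le_trans (le_trans (SIDEy.card9 _ (PL1 d c sg) _ _ _ _ _ _ _ _ ?_)
    (Nat.add_le_add (Nat.add_le_add (Nat.add_le_add (Nat.add_le_add (Nat.add_le_add
      (Nat.add_le_add (Nat.add_le_add (Nat.add_le_add le_rfl h2) h3) h4) h5) h6) h7) h8) h9)) ?_
  · intro p hp
    obtain ⟨hm, s, l, e, h1, h1', -⟩ := mem_filter.1 hp
    have key : ∀ φ : ℕ → ℕ → ℤ → ℕ → ℕ → Prop, φ s p.1 p.2 l e → p ∈ BR d c K φ :=
      fun φ g => mem_filter.2 ⟨hm, s, l, e, h1, h1', g⟩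
    rcases hθ K J c h hc hJ s p.1 p.2 l e h1 with g | ⟨i, hi, g⟩ | g
    · exact Or.inl (mem_filter.2 ⟨hm, g ▸ h1.2.2.1⟩)
    · exact Or.inr (Or.inl (mem_biUnion.2 ⟨i, mem_range.2 hi, key _ g⟩))
    refine Or.inr (Or.inr ?_)
    rcases hTYP sg K d c h hc s p.1 p.2 l e h1 h1' with g3 | g3 | ⟨g3, g4⟩
    · refine Or.inr (Or.inr (Or.inr ?_))
      rcases g with g | g
      · exact Or.inl (key _ ⟨g3, g⟩)
      · exact Or.inr (Or.inl (key _ ⟨g3, g⟩))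
    · exact Or.inl (key _ g3)
    by_cases g5 : crs d s p.1 p.2 l e
    · exact Or.inr (Or.inl (key _ g5))
    refine Or.inr (Or.inr ?_)
    by_cases g6 : ∃ b < e, insb d c s p.2 l b
    · exact Or.inl (key _ ⟨g3, g4, g5, g6⟩)
    refine Or.inr (Or.inr (Or.inr ?_))
    rcases g with ⟨i, hi, a1, a2, a3⟩ | ⟨i, hi, a1, a2, a3⟩
    · exact Or.inl (key _ ⟨g3, g4, g5, i, hi, a1, a2, a3, fun a4 => g6 ⟨_, a1, a4⟩⟩)
    · exact Or.inr (key _ ⟨g3, g4, g5, i, hi, a1, a2, a3, fun a4 => g6 ⟨_, a1, a4⟩⟩)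
  · generalize ∑ i ∈ range J, #(PQ d c J (sg + (4 ^ q) ^ i) (sg + (4 ^ q) ^ (i + 1)) J) = R1
    generalize ∑ i ∈ NI q sg J, #(PQ d c J (sg + i.2.2) J
      (sg + i.2.2 + (4 ^ (i.1 + 1)) ^ (i.2.1 + 1))) = R2
    have e1 : (1 + 4 * K) * (R1 + R2) = R1 + R2 + 4 * K * R1 + 4 * K * R2 := by ring
    have e2 : (1 + 2 * K) * #(BL d c J) = #(BL d c J) + 2 * K * #(BL d c J) := by ring
    omega

end Pool.Agent.P.MP_119182_lc.LQ
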