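import Pool.Agent.P.MP_119182_lc.LQ.Iface

/-! Step SUM. -/

set_option autoImplicit false

namespace Pool.Agent.P.MP_119182_lc.LQ

open Finset
open scoped Classical
open NU (Run mr)
open LP

namespace SUMy

lemma step (x k r r' a P : ℚ) (hx : 1 ≤ x) (hk : 0 ≤ k) (ha : 0 ≤ a) (hP : 0 ≤ P)
    (h : k * x ^ 3 * r ≤ k * x ^ 3 * a + P + 4 * (k * x ^ 3) * r') :
    (2 * x ^ 2 - 1) * (k * r) ≤ 2 * x ^ 2 * (k * a) + 2 * (P / x) + (8 * x ^ 2 - 4) * (k * r') := by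
  have h0 : 0 < x := by linarith
  have h1 : k * r ≤ k * a + P / x ^ 3 + 4 * (k * r') := by
    refine le_of_mul_le_mul_left ?_ (pow_pos h0 3)
    rw [mul_add, mul_add, mul_div_cancel₀ _ (pow_pos h0 3).ne']
    linarith
  have h2 := mul_le_mul_of_nonneg_left h1 (show 0 ≤ 2 * x ^ 2 - 1 by nlinarith)
  have h3 : x ^ 2 * (P / x ^ 3) = P / x := by field_simp
  have h4 : 0 ≤ P / x ^ 3 := by positivity
  have h5 : 0 ≤ k * a := by positivity
  nlinarith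

lemma inv (J κ P : ℕ) (r a : ℕ → ℕ)
    (h : ∀ t < J, κ * 8 ^ t * r t ≤ κ * 8 ^ t * a t + P + 4 * (κ * 8 ^ t) * r (t + 1)) :
    ∀ N ≤ J, (κ : ℚ) * ∑ t ∈ range N, (r t : ℚ) + 4 * (P / 2 ^ N) ≤
      4 * P + κ * ∑ t ∈ range N, 2 * 4 ^ t * (a t : ℚ) + (2 * 4 ^ N - 2) * (κ * r N) := by
  intro N
  induction N with
  | zero => simp
  | succ N ih =>
    intro hN
    have h1 := ih (by omega)
    have e4 : (4 : ℚ) ^ N = (2 ^ N) ^ 2 := by rw [← pow_mul, mul_comm, pow_mul]; norm_num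
    have e8 : (8 : ℚ) ^ N = (2 ^ N) ^ 3 := by rw [← pow_mul, mul_comm, pow_mul]; norm_num
    have h2 : (κ : ℚ) * 8 ^ N * r N ≤ κ * 8 ^ N * a N + P + 4 * (κ * 8 ^ N) * r (N + 1) := by
      exact_mod_cast h N hN
    rw [e8] at h2
    have h3 := step (2 ^ N) κ (r N) (r (N + 1)) (a N) P (one_le_pow₀ one_le_two)
      (by positivity) (by positivity) (by positivity) h2
    have h4 : (P : ℚ) / 2 ^ (N + 1) = P / 2 ^ N / 2 := by rw [pow_succ, div_div]
    have h5 : (0 : ℚ) ≤ κ * r (N + 1) := by positivity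
    rw [← e4] at h3
    rw [sum_range_succ, sum_range_succ, h4, pow_succ]
    linarith

end SUMy

theorem p_SUM :
    S_SUM := by
  intro J κ P r a _ h0 h
  have h1 := SUMy.inv J κ P r a h J le_rfl
  have h2 : (0 : ℚ) ≤ P / 2 ^ J := by positivity
  rw [h0] at h1
  have h3 : (κ : ℚ) * ∑ t ∈ range J, (r t : ℚ) ≤
      4 * P + κ * ∑ t ∈ range J, 2 * 4 ^ t * (a t : ℚ) := by
    push_cast at h1
    linarith
  exact_mod_cast h3

end Pool.Agent.P.MP_119182_lc.LQ
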