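import Pool.Agent.P.MP_119182_lc.LQ.Iface

/-! Step WTA. -/

set_option autoImplicit false

namespace Pool.Agent.P.MP_119182_lc.LQ

open Finset
open scoped Classical
open NU (Run mr)
open LP

namespace WTAy

theorem cnt (J r p x : ℕ) (hr : 0 < r) :
    #((range J).filter fun a => r ∣ a ∧ a < x ∧ x ≤ a + r * p) ≤ p := by
  have h1 : #((range J).filter fun a => r ∣ a ∧ a < x ∧ x ≤ a + r * p) ≤
      #(Icc ((x - 1) / r + 1 - p) ((x - 1) / r)) := by
    refine card_le_card_of_injOn (fun a => a / r) ?_ ?_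
    · intro a ha
      obtain ⟨-, ⟨k, rfl⟩, h2, h3⟩ := mem_filter.1 (mem_coe.1 ha)
      have e : r * k / r = k := Nat.mul_div_cancel_left k hr
      have a1 : k ≤ (x - 1) / r := by
        rw [Nat.le_div_iff_mul_le hr, Nat.mul_comm]
        omega
      have a2 : (x - 1) / r < k + p := by
        rw [Nat.div_lt_iff_lt_mul hr, Nat.mul_comm, Nat.mul_add]
        omega
      simp only [coe_Icc, Set.mem_Icc, e]
      omega
    · intro a ha b hb hab
      obtain ⟨-, ⟨k, rfl⟩, -⟩ := mem_filter.1 (mem_coe.1 ha)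
      obtain ⟨-, ⟨k', rfl⟩, -⟩ := mem_filter.1 (mem_coe.1 hb)
      simp only [Nat.mul_div_cancel_left _ hr] at hab
      rw [hab]
  rw [Nat.card_Icc] at h1
  omega

theorem shift (J sg : ℕ) (h : ℕ → ℕ) :
    ∑ a ∈ range J, (if sg + a < J then h (sg + a) else 0) ≤ ∑ l ∈ range J, h l := by
  rw [← sum_filter, ← sum_image (s := (range J).filter fun a => sg + a < J)
    (g := fun a => sg + a) (f := h) (fun a _ b _ hab => by simpa using hab)]
  refine sum_le_sum_of_subset ?_
  intro l hl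
  obtain ⟨a, ha, rfl⟩ := mem_image.1 hl
  exact mem_range.2 (mem_filter.1 ha).2

theorem four (J sg b r c : ℕ) (v : ℕ → ℕ) :
    ∑ a ∈ range J, (if b < a ∧ r ∣ a ∧ sg + a < J then c * v (sg + a) else 0) ≤
      ∑ l ∈ range J, (if b < l - sg then (if r ∣ l - sg then c else 0) else 0) * v l := by
  refine le_trans (sum_le_sum ?_) (shift J sg fun l =>
    (if b < l - sg then (if r ∣ l - sg then c else 0) else 0) * v l)
  intro a _
  by_cases h : b < a ∧ r ∣ a ∧ sg + a < J
  · rw [if_pos h, if_pos h.2.2, Nat.add_sub_cancel_left, if_pos h.1, if_pos h.2.1]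
  · rw [if_neg h]
    exact Nat.zero_le _

theorem three (J sg b r p : ℕ) (hr : 0 < r) (v : ℕ → ℕ) :
    ∑ a ∈ range J, (if b < a ∧ r ∣ a ∧ sg + a < J then
      2 * ∑ l ∈ (range J).filter (fun l => sg + a < l ∧ l ≤ sg + a + r * p), v l else 0) ≤
      ∑ l ∈ range J, (if b < l - sg then 2 * p else 0) * v l := by
  have h1 : ∀ a ∈ range J, (if b < a ∧ r ∣ a ∧ sg + a < J then
      2 * ∑ l ∈ (range J).filter (fun l => sg + a < l ∧ l ≤ sg + a + r * p), v l else 0) ≤
      ∑ l ∈ range J, (if r ∣ a ∧ a < l - sg ∧ l - sg ≤ a + r * p then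
        (if b < l - sg then 2 else 0) * v l else 0) := by
    intro a _
    by_cases h : b < a ∧ r ∣ a ∧ sg + a < J
    · rw [if_pos h, sum_filter, mul_sum]
      refine sum_le_sum fun l _ => ?_
      by_cases h2 : sg + a < l ∧ l ≤ sg + a + r * p
      · rw [if_pos h2, if_pos ⟨h.2.1, by omega, by omega⟩, if_pos (by omega)]
      · rw [if_neg h2]
        exact Nat.zero_le _
    · rw [if_neg h]
      exact Nat.zero_le _
  refine le_trans (sum_le_sum h1) ?_
  rw [sum_comm]
  refine sum_le_sum fun l _ => ?_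
  rw [← sum_filter, sum_const, smul_eq_mul]
  refine le_trans (Nat.mul_le_mul_right _ (cnt J r p (l - sg) hr)) (le_of_eq ?_)
  split_ifs <;> ring

theorem tier (J sg b c e : ℕ) (v : ℕ → ℕ) :
    2 * e * (if sg + b < J then c * v (sg + b) +
      2 * ∑ l ∈ (range J).filter (fun l => sg + b < l ∧ l ≤ J), v l else 0) ≤
      ∑ l ∈ range J, (if l - sg = b then 2 * e * c else 0) * v l +
        ∑ l ∈ range J, (if b < l - sg then 4 * e else 0) * v l := by
  by_cases h : sg + b < J
  · rw [if_pos h, mul_add]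
    refine Nat.add_le_add ?_ ?_
    · refine le_trans (le_of_eq ?_) (single_le_sum
        (f := fun l => (if l - sg = b then 2 * e * c else 0) * v l)
        (fun _ _ => Nat.zero_le _) (mem_range.2 h))
      rw [if_pos (by omega)]
      ring
    · rw [sum_filter, mul_sum, mul_sum]
      refine sum_le_sum fun l _ => ?_
      by_cases h2 : sg + b < l ∧ l ≤ J
      · rw [if_pos h2, if_pos (by omega)]
        exact le_of_eq (by ring)
      · rw [if_neg h2]
        exact Nat.zero_le _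
  · rw [if_neg h]
    exact Nat.zero_le _

theorem tail (q κ J a : ℕ) (hq : 1 ≤ q) : ∑ t ∈ range J, wt q κ t a ≤ W q κ a := by
  refine sum_le_sum_of_ne_zero ?_
  intro t _ ht
  by_contra hn
  have h1 : a < t := by
    have := mt mem_range.2 hn
    omega
  have h2 : t < (4 ^ q) ^ t :=
    Nat.lt_pow_self (Nat.one_lt_pow (by omega) (by norm_num))
  apply ht
  unfold wt
  rw [if_neg (by omega), if_neg (by omega), Nat.add_zero]

theorem band (q κ sg J t : ℕ) (v : ℕ → ℕ) :
    2 * 4 ^ t * (if sg + (4 ^ q) ^ t < J then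
        ((4 ^ q) ^ (t + 1) + κ * 8 ^ t + 1) * v (sg + (4 ^ q) ^ t) +
          2 * ∑ l ∈ (range J).filter (fun l => sg + (4 ^ q) ^ t < l ∧ l ≤ J), v l else 0) +
      ∑ j ∈ range q, ∑ a ∈ range J,
        (if (4 ^ q) ^ t < a ∧ (4 ^ (t + 1)) ^ j ∣ a ∧ sg + a < J then
          ((4 ^ (t + 1)) ^ (j + 1) * v (sg + a) +
            2 * ∑ l ∈ (range J).filter (fun l => sg + a < l ∧
              l ≤ sg + a + (4 ^ (t + 1)) ^ (j + 1)), v l) else 0) ≤
      ∑ l ∈ range J, wt q κ t (l - sg) * v l := by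
  have h1 := tier J sg ((4 ^ q) ^ t) ((4 ^ q) ^ (t + 1) + κ * 8 ^ t + 1) (4 ^ t) v
  have h2 : ∀ j ∈ range q, ∑ a ∈ range J,
      (if (4 ^ q) ^ t < a ∧ (4 ^ (t + 1)) ^ j ∣ a ∧ sg + a < J then
        ((4 ^ (t + 1)) ^ (j + 1) * v (sg + a) +
          2 * ∑ l ∈ (range J).filter (fun l => sg + a < l ∧
            l ≤ sg + a + (4 ^ (t + 1)) ^ (j + 1)), v l) else 0) ≤
      ∑ l ∈ range J, ((if (4 ^ q) ^ t < l - sg then (if (4 ^ (t + 1)) ^ j ∣ l - sg then
          (4 ^ (t + 1)) ^ (j + 1) else 0) else 0) * v l +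
        (if (4 ^ q) ^ t < l - sg then 2 * 4 ^ (t + 1) else 0) * v l) := by
    intro j _
    rw [sum_add_distrib]
    refine le_trans (le_of_eq ?_) (Nat.add_le_add
      (four J sg ((4 ^ q) ^ t) ((4 ^ (t + 1)) ^ j) ((4 ^ (t + 1)) ^ (j + 1)) v)
      (three J sg ((4 ^ q) ^ t) ((4 ^ (t + 1)) ^ j) (4 ^ (t + 1)) (by positivity) v))
    rw [← sum_add_distrib]
    refine sum_congr rfl fun a _ => ?_
    rw [← pow_succ (4 ^ (t + 1)) j]
    split_ifs <;> rfl
  refine le_trans (Nat.add_le_add h1 (sum_le_sum h2)) (le_of_eq ?_)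
  rw [sum_comm, ← sum_add_distrib, ← sum_add_distrib]
  refine sum_congr rfl fun l _ => ?_
  unfold wt
  by_cases h : (4 ^ q) ^ t < l - sg
  · simp only [if_pos h]
    rw [sum_add_distrib, ← sum_mul, sum_const, card_range, smul_eq_mul]
    ring
  · simp only [if_neg h]
    simp

end WTAy

theorem p_WTA :
    S_WTA := by
  intro q κ sg J v hq
  unfold NI
  rw [sum_filter, sum_product]
  simp only [sum_product]
  rw [← sum_add_distrib]
  refine le_trans (sum_le_sum fun t _ => WTAy.band q κ sg J t v) ?_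
  rw [sum_comm]
  refine sum_le_sum fun l _ => ?_
  rw [← sum_mul]
  exact Nat.mul_le_mul_right _ (WTAy.tail q κ J (l - sg) hq)

end Pool.Agent.P.MP_119182_lc.LQ
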