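import Pool.Agent.P.MP_119182_lc.LQ.Iface

/-! Step WTB. -/

set_option autoImplicit false

namespace Pool.Agent.P.MP_119182_lc.LQ

open Finset
open scoped Classical
open NU (Run mr)
open LP

namespace WTBy

lemma geo (T : ℕ) : ∑ t ∈ range (T + 1), 4 ^ t ≤ 2 * 4 ^ T := by
  induction T with
  | zero => simp
  | succ T ih =>
    rw [sum_range_succ, pow_succ]
    omega

lemma mult (r j L : ℕ) : ∑ a ∈ Ioc 0 L, (if r ^ j ∣ a then r ^ (j + 1) else 0) ≤ r * L := by
  rw [← sum_filter, sum_const, Nat.Ioc_filter_dvd_card_eq_div, smul_eq_mul, pow_succ, ← mul_assoc,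
    mul_comm r]
  exact Nat.mul_le_mul_right _ (Nat.div_mul_le_self _ _)

lemma band (q κ t L : ℕ) (hq : 2 ≤ q) : ∑ a ∈ range (L + 1), wt q κ t a ≤
    if (4 ^ q) ^ t ≤ L then (2 * (4 ^ q + κ + 1) + 4 + 12 * q) * L * 4 ^ t else 0 := by
  have b0 : 0 < (4 ^ q) ^ t := by positivity
  split_ifs with h
  · have h8 : 8 ^ t ≤ L := by
      refine le_trans (Nat.pow_le_pow_left ?_ t) h
      exact le_trans (by norm_num) (Nat.pow_le_pow_right (by norm_num) hq)
    have k1 : ∑ a ∈ range (L + 1), (if a = (4 ^ q) ^ t then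
        2 * 4 ^ t * ((4 ^ q) ^ (t + 1) + κ * 8 ^ t + 1) else 0) ≤
        2 * 4 ^ t * (4 ^ q * L + κ * L + L) := by
      rw [sum_ite_eq']
      split_ifs
      · rw [pow_succ' (4 ^ q)]
        gcongr
        omega
      · exact Nat.zero_le _
    have k2 : ∑ a ∈ range (L + 1), (if (4 ^ q) ^ t < a then 4 * 4 ^ t + 2 * q * 4 ^ (t + 1) +
        ∑ j ∈ range q, (if (4 ^ (t + 1)) ^ j ∣ a then (4 ^ (t + 1)) ^ (j + 1) else 0) else 0) ≤
        L * (4 * 4 ^ t + 2 * q * 4 ^ (t + 1)) + q * (4 ^ (t + 1) * L) := by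
      rw [← sum_filter]
      refine (sum_le_sum_of_subset (t := Ioc 0 L) fun a ha => ?_).trans ?_
      · simp only [mem_filter, mem_range, mem_Ioc] at ha ⊢
        omega
      · rw [sum_add_distrib, sum_const, Nat.card_Ioc, Nat.sub_zero, smul_eq_mul, sum_comm]
        refine Nat.add_le_add_left ((sum_le_sum fun j _ => mult _ j L).trans ?_) _
        rw [sum_const, card_range, smul_eq_mul]
    simp only [wt]
    rw [sum_add_distrib]
    refine (Nat.add_le_add k1 k2).trans (le_of_eq ?_)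
    ring
  · refine le_of_eq (sum_eq_zero fun a ha => ?_)
    rw [mem_range] at ha
    rw [wt, if_neg (by omega), if_neg (by omega), Nat.add_zero]

end WTBy

theorem p_WTB :
    S_WTB := by
  intro q κ hq
  obtain ⟨D, hD⟩ : ∃ D, D = 2 * (4 ^ q + κ + 1) + 4 + 12 * q := ⟨_, rfl⟩
  refine ⟨D * 2, fun L => ?_⟩
  have B1 : 1 < 4 ^ q := Nat.one_lt_pow (by omega) (by norm_num)
  calc ∑ a ∈ range (L + 1), W q κ a
      ≤ ∑ a ∈ range (L + 1), ∑ t ∈ range (L + 1), wt q κ t a :=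
        sum_le_sum fun a ha => sum_le_sum_of_subset (range_subset_range.2 (mem_range.1 ha))
    _ = ∑ t ∈ range (L + 1), ∑ a ∈ range (L + 1), wt q κ t a := sum_comm
    _ ≤ ∑ t ∈ range (L + 1), if (4 ^ q) ^ t ≤ L then D * L * 4 ^ t else 0 :=
        sum_le_sum fun t _ => hD ▸ WTBy.band q κ t L hq
    _ ≤ ∑ t ∈ range (Nat.log (4 ^ q) L + 1), D * L * 4 ^ t := by
        rw [← sum_filter]
        refine sum_le_sum_of_subset fun t ht => ?_
        exact mem_range.2 (Nat.lt_succ_of_le (Nat.le_log_of_pow_le B1 (mem_filter.1 ht).2))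
    _ ≤ _ := by
        rw [← mul_sum, mul_right_comm D 2, mul_assoc (D * L)]
        exact Nat.mul_le_mul_left _ (WTBy.geo _)

end Pool.Agent.P.MP_119182_lc.LQ
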