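import Pool.Agent.P.MP_119182_lc.WQ.End
import Pool.Agent.P.MP_119182_lc.LQ.TENT
import Pool.Agent.P.MP_119182_lc.LQ.TGRID
import Pool.Agent.P.MP_119182_lc.LQ.TCH
import Pool.Agent.P.MP_119182_lc.LQ.TPP0
import Pool.Agent.P.MP_119182_lc.LQ.TPP1
import Pool.Agent.P.MP_119182_lc.LQ.TPP2
import Pool.Agent.P.MP_119182_lc.LQ.TSIDE
import Pool.Agent.P.MP_119182_lc.LQ.TTWO
import Pool.Agent.P.MP_119182_lc.LQ.TCASE
import Pool.Agent.P.MP_119182_lc.LQ.TMK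
import Pool.Agent.P.MP_119182_lc.LQ.TPAS
import Pool.Agent.P.MP_119182_lc.LQ.TFRO
import Pool.Agent.P.MP_119182_lc.LQ.TREC
import Pool.Agent.P.MP_119182_lc.LQ.TSUM
import Pool.Agent.P.MP_119182_lc.LQ.TWTA
import Pool.Agent.P.MP_119182_lc.LQ.TWTB
import Pool.Agent.P.MP_119182_lc.LQ.TPAIRS
import Pool.Agent.P.MP_119182_lc.LQ.TMIR
import Pool.Agent.P.MP_119182_lc.LQ.TLOW
import Pool.Agent.P.MP_119182_lc.LQ.TLQ

/-! All steps together. -/

set_option autoImplicit false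

namespace Pool.Agent.P.MP_119182_lc.LQ

open GP.Ap

theorem a_TWO : S_TWO := p_TWO sm en use

theorem a_SIDE : S_SIDE :=
  p_SIDE typ (LP.p_TOP sm en link use march) (LP.p_RB sm en link frz use) (p_ENT sm step use)
    (p_CH sm en link gain use p_GRID) (p_PP0 sm link use march) (p_PP1 sm link frz use sync)
    (p_PP2 sm link use march sync)

theorem a_PAIRS : S_PAIRS :=
  p_PAIRS (p_PAS en a_TWO) (p_FRO en mark)
    (p_REC sm en use mark a_TWO (p_CASE sm en gain use a_TWO) (p_MK sm use)) p_SUM p_WTA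

theorem a_LQ : S_LQ :=
  p_LQ NU.a_EMIR sm (LP.p_CUT sm en step gain use) (LP.p_MIR sm use NU.a_EMIR) (p_MIR sm) a_SIDE
    a_PAIRS p_WTB (p_LOW sm GP.p_SIDE IT.p_TWO NU.a_EMIR)

theorem eps_of (h : S_LQ) : WQ.S_EPS := by
  intro q hq
  obtain ⟨w, C, -, h1, h2, h3⟩ := h q 800 hq (by norm_num)
  refine ⟨w, C, h1, fun l => (h2 l).trans ?_, C, h3⟩
  rw [mul_assoc]
  exact Nat.mul_le_mul_left _ (Nat.le_succ _)

theorem a_EPS : WQ.S_EPS := eps_of a_LQ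

end Pool.Agent.P.MP_119182_lc.LQ
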