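import Pool.Agent.P.MP_119182_lc.GP.Iface2

/-! Links inside cold dyadic cells, counted through cells strictly below the host. -/

set_option autoImplicit false

namespace Pool.Agent.P.MP_119182_lc.LQ

open Finset
open scoped Classical
open NU (Run mr)
open LP

section
variable (d : Run) (c : ℕ → ℕ → ℤ → Prop)

/-- A witness for the life of the cell of level `l` and the life of the cell of level `b`; the next
link of the witness has level at most `n`. -/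
def wq (s : ℕ) (y : ℤ) (l b n : ℕ) : Prop :=
  use d c s y l ∧ b < l ∧ c s b (y / 2 ^ b) ∧
    (∀ t, s < t → up d t y → (∀ T, s < T → T < t → ¬ up d T y) →
      sm n (d.lp (t + 1) y) (d.rp (t + 1) y)) ∧
    ∀ T ≤ s, c T b (y / 2 ^ b) → en d b y T = en d b y s → A d l T y

/-- The pairs with small cell of level `b` and large cell of level at most `φ`. -/
noncomputable def PQ (J b n φ : ℕ) : Finset (ℤ × ℕ × ℕ) :=
  ((range d.m ×ˢ d.keys ×ˢ range J).filter fun p =>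
    wq d c p.1 p.2.1 p.2.2 b n ∧ p.2.2 ≤ φ).image fun p =>
      (p.2.1 / 2 ^ b, p.2.2, en d p.2.2 p.2.1 p.1)

/-- The links in cold cells of the least level. -/
noncomputable def PL1 (sg : ℕ) : Finset (ℕ × ℤ) :=
  (range d.m ×ˢ d.keys).filter fun p => use d c p.1 p.2 (sg + 1)

/-- The whole block of the use at time `s` lies in the cell of level `b` of `y`. -/
def insb (s : ℕ) (y : ℤ) (l b : ℕ) : Prop :=
  ∀ s' y', same d c s y s' y' l → rho d s' y' = rho d s y → sm b y y'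

/-- The key rose above level `l` at time `T` as the lower node of a link outside the cold cells,
and the two uses lie on both sides of the threshold `θ T y`. -/
def ent (θ : ℕ → ℤ → ℕ) (s _t : ℕ) (y : ℤ) (l e : ℕ) : Prop :=
  ∃ T u, low d T y u ∧ (¬ ∃ i, use d c T u i) ∧ T < s ∧ (∀ T', T < T' → T' ≤ s → A d l T' y) ∧
    e ≤ θ T y ∧ θ T y < l

/-- The lives of the levels in `(b, φ]`. -/
noncomputable def VS (J b φ : ℕ) : ℕ :=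
  ∑ l ∈ (range J).filter (fun l => b < l ∧ l ≤ φ), #(LV d c l)

end

/-- The indices (band, step, level) of the cells of the grids. -/
def NI (q sg J : ℕ) : Finset (ℕ × ℕ × ℕ) :=
  (range J ×ˢ range q ×ˢ range J).filter fun i =>
    (4 ^ q) ^ i.1 < i.2.2 ∧ (4 ^ (i.1 + 1)) ^ i.2.1 ∣ i.2.2 ∧ sg + i.2.2 < J

/-- The weight that band `t` puts on level `a`. -/
def wt (q κ t a : ℕ) : ℕ :=
  (if a = (4 ^ q) ^ t then 2 * 4 ^ t * ((4 ^ q) ^ (t + 1) + κ * 8 ^ t + 1) else 0) +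
    if (4 ^ q) ^ t < a then 4 * 4 ^ t + 2 * q * 4 ^ (t + 1) +
      ∑ j ∈ range q, (if (4 ^ (t + 1)) ^ j ∣ a then (4 ^ (t + 1)) ^ (j + 1) else 0) else 0

/-- The weight of level `a`. -/
def W (q κ a : ℕ) : ℕ := ∑ t ∈ range (a + 1), wt q κ t a

/-! ### Uses and pairs -/

-- deps: LP.SM LP.STEP LP.USE
def S_ENT : Prop :=
  ∀ (sg K : ℕ) (d : Run) (c : ℕ → ℕ → ℤ → Prop) (θ : ℕ → ℤ → ℕ), d.OK → Cold sg d c →
    #(BR d c K (ent d c θ)) ≤ #(NP d c)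

-- deps:
def S_GRID : Prop :=
  ∀ q, 1 ≤ q → ∃ θ : ℕ → ℕ → ℕ, ∀ c e l t : ℕ, (4 ^ q) ^ t < c → c ≤ l → e < l → (4 ^ q) ^ t < e →
    e ≤ (4 ^ q) ^ (t + 1) → (∃ i < q + 2, e ≤ θ i c ∧ θ i c < l) ∨
      ∃ j < q, ∃ a, c ≤ a ∧ a < e ∧ (4 ^ (t + 1)) ^ j ∣ a ∧ l ≤ a + (4 ^ (t + 1)) ^ (j + 1)

-- deps: LP.SM LP.EN LP.LINK LP.GAIN LP.USE GRID
def S_CH : Prop :=
  ∀ q, 1 ≤ q → ∀ (sg : ℕ) (d : Run), ∃ θ : ℕ → ℕ → ℤ → ℕ,
    ∀ (K J : ℕ) (c : ℕ → ℕ → ℤ → Prop), d.OK → Cold sg d c → sm J d.L d.R → ∀ s t y l e,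
      bs d c K s t y l e → e = sg + 1 ∨ (∃ i < q + 2, ent d c (θ i) s t y l e) ∨
        (∃ i ∈ range J, sg + (4 ^ q) ^ i < e ∧
          wq d c s y l (sg + (4 ^ q) ^ i) (sg + (4 ^ q) ^ (i + 1)) ∧ l ≤ J) ∨
        ∃ i ∈ NI q sg J, sg + i.2.2 < e ∧ wq d c s y l (sg + i.2.2) J ∧
          l ≤ sg + i.2.2 + (4 ^ (i.1 + 1)) ^ (i.2.1 + 1)

-- deps: LP.SM LP.LINK LP.USE LP.MARCH
def S_PP0 : Prop :=
  ∀ (ι : Type) (I : Finset ι) (b n φ : ι → ℕ) (sg K J : ℕ) (d : Run) (c : ℕ → ℕ → ℤ → Prop),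
    d.OK → Cold sg d c → sm J d.L d.R →
    #(BR d c K fun s t y l e => top0 d s t y l e ∧
      ∃ i ∈ I, b i < e ∧ wq d c s y l (b i) (n i) ∧ l ≤ φ i) ≤
      ∑ i ∈ I, #(PQ d c J (b i) (n i) (φ i))

-- deps: LP.SM LP.LINK LP.FRZ LP.USE LP.SYNC
def S_PP1 : Prop :=
  ∀ (sg K J : ℕ) (d : Run) (c : ℕ → ℕ → ℤ → Prop), d.OK → Cold sg d c → sm J d.L d.R →
    #(BR d c K fun s t y l e => lso d s t y l e ∧ d.x t < y ∧ ¬ crs d s t y l e ∧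
      ∃ b < e, insb d c s y l b) ≤ 2 * K * #(BL d c J)

-- deps: LP.SM LP.LINK LP.USE LP.MARCH LP.SYNC
def S_PP2 : Prop :=
  ∀ (ι : Type) (I : Finset ι) (b n φ : ι → ℕ) (sg K J : ℕ) (d : Run) (c : ℕ → ℕ → ℤ → Prop),
    d.OK → Cold sg d c → sm J d.L d.R →
    #(BR d c K fun s t y l e => lso d s t y l e ∧ d.x t < y ∧ ¬ crs d s t y l e ∧
      ∃ i ∈ I, b i < e ∧ wq d c s y l (b i) (n i) ∧ l ≤ φ i ∧ ¬ insb d c s y l (b i)) ≤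
      4 * K * ∑ i ∈ I, #(PQ d c J (b i) (n i) (φ i))

-- deps: LP.TYP LP.TOP LP.RB ENT CH PP0 PP1 PP2
def S_SIDE : Prop :=
  ∀ q, 1 ≤ q → ∀ (sg K J : ℕ) (d : Run) (c : ℕ → ℕ → ℤ → Prop), d.OK → Cold sg d c →
    sm J d.L d.R → #(BR d c K fun _ _ _ _ _ => True) ≤
      #(PL1 d c sg) + (q + 2) * #(NP d c) + ∑ j ∈ range J, #(LV d c j) +
      (1 + 2 * K) * (d.m + 2 * ∑ j ∈ range J, #(LV d c j)) + (1 + 4 * K) *
        (∑ i ∈ range J, #(PQ d c J (sg + (4 ^ q) ^ i) (sg + (4 ^ q) ^ (i + 1)) J) +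
          ∑ i ∈ NI q sg J, #(PQ d c J (sg + i.2.2) J
            (sg + i.2.2 + (4 ^ (i.1 + 1)) ^ (i.2.1 + 1))))

/-! ### The number of pairs -/

-- deps: LP.SM LP.EN LP.USE
def S_TWO : Prop :=
  ∀ (sg : ℕ) (d : Run) (c : ℕ → ℕ → ℤ → Prop), d.OK → Cold sg d c → ∀ e n s y l s' y' l',
    wq d c s y l e n → wq d c s' y' l' e n → sm e y y' → en d e y s = en d e y' s' →
    pass d e (y / 2 ^ e, l, en d l y s) → pass d e (y' / 2 ^ e, l', en d l' y' s') →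
    (l = l' → en d l y s = en d l y' s') ∧
    (l' < l → en d l y s < en d l' y' s' ∧ (n < l' → y ≠ y')) ∧
    ∀ g n', e ≤ g → g < l → n ≤ n' → wq d c s y l g n'

-- deps: LP.SM LP.EN LP.GAIN LP.USE TWO
def S_CASE : Prop :=
  ∀ (sg : ℕ) (d : Run) (c : ℕ → ℕ → ℤ → Prop), d.OK → Cold sg d c → ∀ e n s y l s' y' l' b,
    wq d c s y l e n → wq d c s' y' l' e n → sm e y y' → en d e y s = en d e y' s' →
    pass d e (y / 2 ^ e, l, en d l y s) → pass d e (y' / 2 ^ e, l', en d l' y' s') → l' < l →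
    b ≤ s → c b l (y / 2 ^ l) → en d l y b = en d l y s →
    (A d l b y ∧ A d (l' - 1) b y' ∧ ¬ A d l b y') ∨
    ∃ r g, b ≤ r ∧ r < en d l y s ∧ l' ≤ g ∧ g ≤ l ∧ use d c r y' g ∧
      (g < l → en d l y s ≤ en d g y' r)

-- deps: LP.SM LP.USE
/-- Two small cells next to the middles of two large cells over one cell of level `n`. -/
def S_MK : Prop :=
  ∀ (sg : ℕ) (d : Run) (c : ℕ → ℕ → ℤ → Prop), d.OK → Cold sg d c →
    ∀ (e n g g' T r r' : ℕ) (v w v' w' : ℤ), use d c r v g → use d c r' v' g' → sm n v v' →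
      e ≤ n → n < g → n < g' → r < T → T ≤ en d g v r → r' < T → T ≤ en d g' v' r' →
      sm e v w → sm e v' w' → A d g T w → A d g T w' → A d g' T w → A d g' T w' →
      (v < w ↔ v' < w') → sm e v v'

-- deps: LP.EN TWO
def S_PAS : Prop :=
  ∀ (sg J b n φ : ℕ) (d : Run) (c : ℕ → ℕ → ℤ → Prop), d.OK → Cold sg d c →
    #((PQ d c J b n φ).filter fun q => pass d b q) ≤ (φ - b) * #(LV d c b)

-- deps: LP.EN LP.MARK
def S_FRO : Prop :=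
  ∀ (sg J b n φ : ℕ) (d : Run) (c : ℕ → ℕ → ℤ → Prop), d.OK → Cold sg d c →
    #((PQ d c J b n φ).filter fun q => ¬ pass d b q) ≤ 2 * VS d c J b φ

-- deps: LP.SM LP.EN LP.USE LP.MARK TWO CASE MK
def S_REC : Prop :=
  ∀ (sg J e M n n' : ℕ) (d : Run) (c : ℕ → ℕ → ℤ → Prop), d.OK → Cold sg d c → e < n → n ≤ n' →
    M * #((PQ d c J e n J).filter fun q => pass d e q) ≤
      M * (n - e + M + 1) * #(LV d c e) + #(PL d c) + 4 * M * #(PQ d c J n n' J)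

-- deps:
def S_SUM : Prop :=
  ∀ (J κ P : ℕ) (r a : ℕ → ℕ), 1 ≤ κ → r J = 0 →
    (∀ t < J, κ * 8 ^ t * r t ≤ κ * 8 ^ t * a t + P + 4 * (κ * 8 ^ t) * r (t + 1)) →
    κ * ∑ t ∈ range J, r t ≤ 4 * P + κ * ∑ t ∈ range J, 2 * 4 ^ t * a t

/-! ### Weights -/

-- deps:
def S_WTA : Prop :=
  ∀ (q κ sg J : ℕ) (v : ℕ → ℕ), 1 ≤ q →
    ∑ t ∈ range J, 2 * 4 ^ t * (if sg + (4 ^ q) ^ t < J then
        ((4 ^ q) ^ (t + 1) + κ * 8 ^ t + 1) * v (sg + (4 ^ q) ^ t) +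
          2 * ∑ l ∈ (range J).filter (fun l => sg + (4 ^ q) ^ t < l ∧ l ≤ J), v l else 0) +
      ∑ i ∈ NI q sg J, ((4 ^ (i.1 + 1)) ^ (i.2.1 + 1) * v (sg + i.2.2) +
        2 * ∑ l ∈ (range J).filter (fun l => sg + i.2.2 < l ∧
          l ≤ sg + i.2.2 + (4 ^ (i.1 + 1)) ^ (i.2.1 + 1)), v l) ≤
      ∑ l ∈ range J, W q κ (l - sg) * v l

-- deps:
def S_WTB : Prop :=
  ∀ q κ : ℕ, 2 ≤ q → ∃ C : ℕ, ∀ L,
    ∑ a ∈ range (L + 1), W q κ a ≤ C * L * 4 ^ Nat.log (4 ^ q) L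

-- deps: PAS FRO REC SUM WTA
def S_PAIRS : Prop :=
  ∀ (q κ sg J : ℕ) (d : Run) (c : ℕ → ℕ → ℤ → Prop), 1 ≤ q → 1 ≤ κ → d.OK → Cold sg d c →
    κ * (∑ i ∈ range J, #(PQ d c J (sg + (4 ^ q) ^ i) (sg + (4 ^ q) ^ (i + 1)) J) +
      ∑ i ∈ NI q sg J, #(PQ d c J (sg + i.2.2) J (sg + i.2.2 + (4 ^ (i.1 + 1)) ^ (i.2.1 + 1)))) ≤
      4 * #(PL d c) + κ * ∑ j ∈ range J, W q κ (j - sg) * #(LV d c j)

-- deps: LP.SM
def S_MIR : Prop :=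
  ∀ (sg : ℕ) (d : Run) (c : ℕ → ℕ → ℤ → Prop),
    #(PL d.mir (mc c)) = #(PL d c) ∧ #(NP d.mir (mc c)) = #(NP d c) ∧
      #(PL1 d.mir (mc c) sg) = #(PL1 d c sg)

-- deps: LP.SM GP.SIDE IT.TWO NU.EMIR
def S_LOW : Prop :=
  ∀ (sg : ℕ) (d : Run) (c : ℕ → ℕ → ℤ → Prop), d.OK →
    #(PL1 d c sg) ≤ ∑ t ∈ range d.m, IT.int (sg + 1) d t + ∑ t ∈ range d.m, IT.int (sg + 1) d.mir t

-- deps: NU.EMIR LP.SM LP.CUT LP.MIR MIR SIDE PAIRS WTB LOW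
def S_LQ : Prop :=
  ∀ q K : ℕ, 2 ≤ q → 1 ≤ K → ∃ (w : ℕ → ℕ) (C : ℕ), w 0 = 0 ∧ (∀ k, 1 ≤ k → 1 ≤ w k) ∧
    (∀ l, ∑ k ∈ range (l + 1), w k ≤ C * l * 4 ^ Nat.log (4 ^ q) l) ∧
    ∀ (sg J : ℕ) (d : Run) (c : ℕ → ℕ → ℤ → Prop), d.OK → Cold sg d c → sm J d.L d.R →
    K * #(PL d c) ≤ 2 * #(ON d) + C * ((d.R - d.L).toNat + d.m + #(NP d c) +
      ∑ t ∈ range d.m, IT.int (sg + 1) d t + ∑ t ∈ range d.m, IT.int (sg + 1) d.mir t +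
      ∑ j ∈ range J, w (j - sg) * #(LV d c j))

end Pool.Agent.P.MP_119182_lc.LQ
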