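import Pool.Agent.P.MP_119182_lc.LQ.Iface

/-! Step MK. -/

set_option autoImplicit false

namespace Pool.Agent.P.MP_119182_lc.LQ

open Finset
open scoped Classical
open NU (Run mr)
open LP

namespace MKy

lemma mono (k : ℕ) {a b : ℤ} (h : a ≤ b) : a / 2 ^ k ≤ b / 2 ^ k :=
  Int.ediv_le_ediv (by positivity) h

end MKy

open MKy

theorem p_MK (hSM : LP.S_SM) (hUSE : LP.S_USE) :
    S_MK := by
  intro sg d c hd hc e n g g' T r r' v w v' w' hu hu' hvv hen hg hg' hr hT hr' hT' h1 h1'
    ha ha' hb hb' hiff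
  obtain ⟨-, -, u3, -⟩ := hUSE sg d c hd hc r v _ hu
  obtain ⟨-, -, u3', -⟩ := hUSE sg d c hd hc r' v' _ hu'
  obtain ⟨⟨t1, ⟨o1, o2, -⟩, -⟩, -, s2, -⟩ := hu
  obtain ⟨⟨t1', ⟨o1', o2', -⟩, -⟩, -, s2', -⟩ := hu'
  obtain ⟨-, b1, b2, -⟩ := (hd.tree (r + 1) t1).bnd v o1 o2
  obtain ⟨-, b1', b2', -⟩ := (hd.tree (r' + 1) t1').bnd v' o1' o2'
  have n1 : ∀ z, A d g T z → z ≤ d.lp (r + 1) v ∨ d.rp (r + 1) v ≤ z := fun z hz => by
    by_contra hh
    push Not at hh
    have := (u3 T z hr.le hT hh.1 hh.2 hz).1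
    omega
  have n2 : ∀ z, A d g' T z → z ≤ d.lp (r' + 1) v' ∨ d.rp (r' + 1) v' ≤ z := fun z hz => by
    by_contra hh
    push Not at hh
    have := (u3' T z hr'.le hT' hh.1 hh.2 hz).1
    omega
  have e1 : v / 2 ^ n = w / 2 ^ n := hSM.1 e n v w hen h1
  have e2 : v' / 2 ^ n = w' / 2 ^ n := hSM.1 e n v' w' hen h1'
  have e3 : d.lp (r + 1) v / 2 ^ n ≠ d.rp (r + 1) v / 2 ^ n := s2 n hg
  have e4 : d.lp (r' + 1) v' / 2 ^ n ≠ d.rp (r' + 1) v' / 2 ^ n := s2' n hg'
  unfold sm at hvv h1 h1' ⊢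
  have m1 := mono n b1.le
  have m2 := mono n b2.le
  have m3 := mono n b1'.le
  have m4 := mono n b2'.le
  by_cases hvw : v < w
  · have hvw' := hiff.1 hvw
    have a1 : d.rp (r + 1) v ≤ w := by have := n1 w ha; omega
    have a2 : d.rp (r' + 1) v' ≤ w' := by have := n2 w' hb'; omega
    have m5 := mono n a1
    have m6 := mono n a2
    have a3 : v ≤ w' := by
      rcases n1 w' ha' with h | h
      · have := mono n h
        omega
      · omega
    have a4 : v' ≤ w := by
      rcases n2 w hb with h | h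
      · have := mono n h
        omega
      · omega
    have := mono e a3
    have := mono e a4
    omega
  · have hvw' : ¬ v' < w' := fun h => hvw (hiff.2 h)
    have a1 : w ≤ d.lp (r + 1) v := by have := n1 w ha; omega
    have a2 : w' ≤ d.lp (r' + 1) v' := by have := n2 w' hb'; omega
    have m5 := mono n a1
    have m6 := mono n a2
    have a3 : w' ≤ v := by
      rcases n1 w' ha' with h | h
      · omega
      · have := mono n h
        omega
    have a4 : w ≤ v' := by
      rcases n2 w hb with h | h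
      · omega
      · have := mono n h
        omega
    have := mono e a3
    have := mono e a4
    omega

end Pool.Agent.P.MP_119182_lc.LQ
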